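import Pool.Agent.H38R2.CG3.Par
import Pool.Agent.H38R2.CG.NB

/-!
# Size of the parameters, continued
-/

set_option autoImplicit false

namespace Pool.Agent.W24.SG

open Finset Filter NumberField Pool.Agent.H38R2.CG Pool.Agent.H38R2.CG2 Pool.Agent.H38R2.CG3
open scoped Classical

lemma th_low (a : ℝ) (ha : 2 < a) : 3 / 4 ≤ th a := by
  unfold th cc
  have h2 : (a - 2) / (32 * (a - 1)) ≤ 1 / 32 := by
    rw [div_le_div_iff₀ (by linarith) (by norm_num)]
    linarith
  linarith

lemma ev_L2 (a : ℝ) (ha : 2 < a) : ∀ᶠ L : ℝ in atTop,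
    100 + 2 * a ≤ L ∧ Real.log L ≤ 1 / (1000 * a) * L ^ (1 / 2 : ℝ) ∧ 16 ≤ L ^ a ∧
    2 ≤ a * Real.log L - 3 := by
  have e1 : ∀ᶠ L : ℝ in atTop, 100 + 2 * a ≤ L := eventually_ge_atTop _
  have e2 : ∀ᶠ L : ℝ in atTop, ‖Real.log L‖ ≤ (1 / (1000 * a)) * ‖L ^ (1 / 2 : ℝ)‖ :=
    (isLittleO_log_rpow_atTop (by norm_num : (0 : ℝ) < 1 / 2)).bound (by positivity)
  have e3 : ∀ᶠ L : ℝ in atTop, 5 ≤ Real.log L :=
    Real.tendsto_log_atTop.eventually_ge_atTop _
  filter_upwards [e1, e2, e3] with L h1 h2 h3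
  have hL0 : 0 < L := by linarith
  rw [Real.norm_eq_abs, Real.norm_eq_abs, abs_of_nonneg (by linarith),
    abs_of_nonneg (by positivity)] at h2
  refine ⟨h1, h2, ?_, by nlinarith⟩
  have h6 : L ^ (2 : ℝ) ≤ L ^ a := Real.rpow_le_rpow_of_exponent_le (by linarith) ha.le
  have h7 : L ^ (2 : ℝ) = L * L := by
    rw [show (2 : ℝ) = ((2 : ℕ) : ℝ) by norm_num, Real.rpow_natCast, sq]
  rw [h7] at h6
  nlinarith

/-- (L+1)^a ≤ 2 L^a -/
lemma pow_succ_le (a L : ℝ) (ha : 2 < a) (hL : 100 + 2 * a ≤ L) : (L + 1) ^ a ≤ 2 * L ^ a := by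
  have hL0 : 0 < L := by linarith
  have h1 : (L + 1) ^ a = L ^ a * (1 + 1 / L) ^ a := by
    rw [← Real.mul_rpow hL0.le (by positivity)]
    congr 1
    field_simp
  have h2 : (1 + 1 / L) ^ a ≤ 2 := by
    rw [Real.rpow_def_of_pos (by positivity)]
    have h3 : Real.log (1 + 1 / L) ≤ 1 / L := by
      have := Real.log_le_sub_one_of_pos (show (0 : ℝ) < 1 + 1 / L by positivity)
      linarith
    have h4 : Real.log (1 + 1 / L) * a ≤ 1 / 2 := by
      calc Real.log (1 + 1 / L) * a ≤ 1 / L * a := mul_le_mul_of_nonneg_right h3 (by linarith)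
        _ = a / L := by ring
        _ ≤ 1 / 2 := by
          rw [div_le_div_iff₀ hL0 (by norm_num)]
          linarith
    calc Real.exp (Real.log (1 + 1 / L) * a) ≤ Real.exp (1 / 2) := Real.exp_le_exp.2 h4
      _ ≤ 2 := by
        have h5 := Real.exp_one_lt_d9
        have h6 : Real.exp (1 / 2) * Real.exp (1 / 2) = Real.exp 1 := by
          rw [← Real.exp_add]; norm_num
        have h7 := Real.exp_pos (1 / 2)
        nlinarith
  rw [h1]
  have : 0 ≤ L ^ a := by positivity
  nlinarith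

lemma params2 (a : ℝ) (ha : 2 < a) : ∃ X1 : ℕ, ∀ X : ℕ, X1 ≤ X → ∀ d : ℝ, (X : ℝ) / 4 ≤ d →
    d ≤ 2 * X → 1 ≤ kA a X ∧ 2 * kA a X ≤ (PP (yA a X)).card ∧
      108 * (kA a X : ℝ) ≤ ((PP (yA a X)).card : ℝ) ∧
      3 * (Real.log d) ^ a ≤ ((PP (yA a X)).card : ℝ) * kA a X ∧
      (Real.log d) ^ a ≤ 16 * (yA a X : ℝ) := by
  obtain ⟨y0, hy0⟩ := T_NB.2
  have ht : Tendsto (fun X : ℕ => Real.log (X : ℝ)) atTop atTop :=
    Real.tendsto_log_atTop.comp tendsto_natCast_atTop_atTop
  have hLy : ∀ᶠ L : ℝ in atTop, 8 * ((y0 : ℝ) + 1) ≤ L := eventually_ge_atTop _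
  obtain ⟨X2, hX2⟩ := Filter.eventually_atTop.1 (ht.eventually ((ev_L2 a ha).and hLy))
  refine ⟨max 16 X2, ?_⟩
  intro X hX d hd hd2
  obtain ⟨⟨hL100, hlogL, hLa, hyy⟩, hLy0⟩ := hX2 X (le_trans (le_max_right _ _) hX)
  have hX16 : (16 : ℝ) ≤ X := by exact_mod_cast le_trans (le_max_left _ _) hX
  set L := Real.log (X : ℝ) with hL
  have hL0 : 0 < L := by linarith
  have hl0 : 0 < Real.log L := Real.log_pos (by linarith)
  have hy : (yA a X : ℝ) ≤ L ^ a / 4 := Nat.floor_le (by positivity)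
  have hy1 : L ^ a / 4 - 1 < (yA a X : ℝ) := by
    have := Nat.lt_floor_add_one (L ^ a / 4)
    unfold yA
    linarith
  have hy8 : L ^ a / 8 ≤ (yA a X : ℝ) := by linarith
  have hypos : (0 : ℝ) < yA a X := by
    have : 0 < L ^ a / 8 := by positivity
    linarith
  have hL2 : L ^ (2 : ℝ) ≤ L ^ a := Real.rpow_le_rpow_of_exponent_le (by linarith) ha.le
  have hL2' : L ^ (2 : ℝ) = L * L := by
    rw [show (2 : ℝ) = ((2 : ℕ) : ℝ) by norm_num, Real.rpow_natCast, sq]
  rw [hL2'] at hL2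
  have hyy0 : y0 ≤ yA a X := by
    have h1 : (y0 : ℝ) ≤ yA a X := by nlinarith
    exact_mod_cast h1
  have hP := (hy0 _ hyy0).1
  have hlogy_le : Real.log (yA a X) ≤ a * Real.log L := by
    have h5 : Real.log (yA a X) ≤ Real.log (L ^ a) := by
      apply Real.log_le_log hypos
      have : 0 ≤ L ^ a := by positivity
      linarith
    rwa [Real.log_rpow hL0] at h5
  have hlogy_ge : a * Real.log L - 3 ≤ Real.log (yA a X) := by
    have h5 : Real.log (L ^ a / 8) ≤ Real.log (yA a X) := Real.log_le_log (by positivity) hy8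
    rw [Real.log_div (by positivity) (by norm_num), Real.log_rpow hL0] at h5
    have h8 : Real.log 8 ≤ 3 := by
      rw [show (8 : ℝ) = 2 ^ 3 by norm_num, Real.log_pow]
      have := Real.log_two_lt_d9
      push_cast
      linarith
    linarith
  have hlogy2 : 2 ≤ Real.log (yA a X) := by linarith
  have hth := th_lt_one a ha
  have hth2 := th_low a ha
  set P : ℝ := ((PP (yA a X)).card : ℝ) with hPdef
  have hal : 0 < a * Real.log L := by positivity
  -- lower bound for P
  have hPlow : 9 / 80 * L ^ a / (a * Real.log L) ≤ P := by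
    refine le_trans ?_ hP
    apply div_le_div₀ (by positivity) _ (by linarith) hlogy_le
    linarith
  -- bounds for k
  have hk1 : (kA a X : ℝ) ≤ L := by
    unfold kA
    push_cast
    have h7 : (⌊th a * Real.log X / Real.log (yA a X)⌋₊ : ℝ) ≤ th a * L / Real.log (yA a X) := by
      apply Nat.floor_le
      apply div_nonneg (mul_nonneg hth.2 hL0.le)
      linarith
    have h8 : th a * L / Real.log (yA a X) ≤ L / 2 := by
      apply div_le_div₀ hL0.le _ (by norm_num) hlogy2
      nlinarith [hth.1]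
    linarith
  have hk2 : 3 / 4 * L / (a * Real.log L) ≤ (kA a X : ℝ) := by
    unfold kA
    push_cast
    have h7 := Nat.lt_floor_add_one (th a * Real.log X / Real.log (yA a X))
    refine le_trans ?_ h7.le
    apply div_le_div₀ (mul_nonneg hth.2 hL0.le) _ (by linarith) hlogy_le
    exact mul_le_mul_of_nonneg_right hth2 hL0.le
  -- log L against L
  have hsqrt : L ^ (1 / 2 : ℝ) * L ^ (1 / 2 : ℝ) = L := by
    rw [← Real.rpow_add hL0]
    norm_num
  have hs0 : 0 ≤ L ^ (1 / 2 : ℝ) := by positivity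
  have hs1 : 1 ≤ L ^ (1 / 2 : ℝ) := Real.one_le_rpow (by linarith) (by norm_num)
  have halog : a * Real.log L ≤ 1 / 1000 * L ^ (1 / 2 : ℝ) := by
    calc a * Real.log L ≤ a * (1 / (1000 * a) * L ^ (1 / 2 : ℝ)) :=
          mul_le_mul_of_nonneg_left hlogL (by linarith)
      _ = _ := by
        have : a ≠ 0 := by linarith
        field_simp
  have halog2 : (a * Real.log L) * (a * Real.log L) ≤ 1 / 1000000 * L := by
    calc (a * Real.log L) * (a * Real.log L) ≤
        (1 / 1000 * L ^ (1 / 2 : ℝ)) * (1 / 1000 * L ^ (1 / 2 : ℝ)) :=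
          mul_le_mul halog halog hal.le (by positivity)
      _ = 1 / 1000000 * (L ^ (1 / 2 : ℝ) * L ^ (1 / 2 : ℝ)) := by ring
      _ = _ := by rw [hsqrt]
  have halog3 : a * Real.log L ≤ 1 / 1000 * L := by
    refine halog.trans ?_
    have : L ^ (1 / 2 : ℝ) ≤ L := by nlinarith
    linarith
  have hP108 : 108 * L ≤ P := by
    refine le_trans ?_ hPlow
    rw [le_div_iff₀ hal]
    nlinarith
  have hk108 : 108 * (kA a X : ℝ) ≤ P := by linarith
  -- the logarithm of d
  have hd0 : 0 < d := by linarith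
  have hdup : Real.log d ≤ L + 1 := by
    have h1 : Real.log d ≤ Real.log (2 * X) := Real.log_le_log hd0 hd2
    rw [Real.log_mul (by norm_num) (by positivity)] at h1
    have := Real.log_two_lt_d9
    linarith
  have hdlow : 0 ≤ Real.log d := Real.log_nonneg (by linarith)
  have hda : (Real.log d) ^ a ≤ 2 * L ^ a :=
    (Real.rpow_le_rpow hdlow hdup (by linarith)).trans (pow_succ_le a L ha hL100)
  refine ⟨by unfold kA; omega, ?_, hk108, ?_, by linarith⟩
  · have h9 : (2 * (kA a X : ℝ)) ≤ P := by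
      have : (0 : ℝ) ≤ kA a X := Nat.cast_nonneg _
      linarith
    rw [hPdef] at h9
    exact_mod_cast h9
  · have hPk : (9 / 80 * L ^ a / (a * Real.log L)) * (3 / 4 * L / (a * Real.log L)) ≤
        P * kA a X :=
      mul_le_mul hPlow hk2 (by positivity) (by positivity)
    refine le_trans ?_ hPk
    rw [div_mul_div_comm, le_div_iff₀ (by positivity)]
    have hLa0 : 0 < L ^ a := by positivity
    have h10 : 3 * (Real.log d) ^ a ≤ 6 * L ^ a := by linarith
    calc 3 * (Real.log d) ^ a * (a * Real.log L * (a * Real.log L))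
        ≤ 6 * L ^ a * (1 / 1000000 * L) :=
          mul_le_mul h10 halog2 (by positivity) (by positivity)
      _ ≤ 9 / 80 * L ^ a * (3 / 4 * L) := by
          have : 0 < L ^ a * L := by positivity
          nlinarith

end Pool.Agent.W24.SG
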