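import Mathlib

/-!
# Random products in a finite commutative group
-/

set_option autoImplicit false

namespace Pool.Agent.W24.SG

open Finset
open scoped Classical

variable {G : Type} [CommGroup G] [Fintype G] {P : Type} [Fintype P]

/-- the character sum -/
noncomputable def lam (c : P → G) (ψ : AddChar (Additive G) ℂ) : ℂ :=
  ∑ p, ψ (Additive.ofMul (c p))

theorem char_prod' {ι : Type} (s : Finset ι) (f : ι → G) (ψ : AddChar (Additive G) ℂ) :
    ψ (Additive.ofMul (∏ i ∈ s, f i)) = ∏ i ∈ s, ψ (Additive.ofMul (f i)) := by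
  induction s using Finset.induction_on with
  | empty =>
    rw [Finset.prod_empty, Finset.prod_empty, ofMul_one, AddChar.map_zero_eq_one]
  | insert a s ha ih =>
    rw [Finset.prod_insert ha, Finset.prod_insert ha, ofMul_mul, AddChar.map_add_eq_mul, ih]

theorem char_prod (c : P → G) (ψ : AddChar (Additive G) ℂ) (r : ℕ) (w : Fin r → P) :
    ψ (Additive.ofMul (∏ i, c (w i))) = ∏ i, ψ (Additive.ofMul (c (w i))) :=
  char_prod' Finset.univ _ ψ

theorem card_add : Fintype.card (Additive G) = Fintype.card G :=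
  Fintype.card_congr Additive.toMul

theorem count (c : P → G) (r : ℕ) (C : G) :
    (Fintype.card G : ℂ) * (((Finset.univ : Finset (Fin r → P)).filter
      (fun w => ∏ i, c (w i) = C)).card : ℂ) =
    ∑ ψ : AddChar (Additive G) ℂ, ψ (Additive.ofMul C⁻¹) * (lam c ψ) ^ r := by
  have h1 : ∀ ψ : AddChar (Additive G) ℂ, ψ (Additive.ofMul C⁻¹) * (lam c ψ) ^ r =
      ∑ w : Fin r → P, ψ (Additive.ofMul (C⁻¹ * ∏ i, c (w i))) := by
    intro ψ
    unfold lam
    rw [Fintype.sum_pow, Finset.mul_sum]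
    refine Finset.sum_congr rfl fun w _ => ?_
    rw [ofMul_mul, AddChar.map_add_eq_mul, char_prod]
  rw [Finset.sum_congr rfl (fun ψ _ => h1 ψ), Finset.sum_comm]
  have h2 : ∀ w : Fin r → P, ∑ ψ : AddChar (Additive G) ℂ,
      ψ (Additive.ofMul (C⁻¹ * ∏ i, c (w i))) =
      if ∏ i, c (w i) = C then (Fintype.card G : ℂ) else 0 := by
    intro w
    rw [AddChar.sum_apply_eq_ite]
    have h3 : Additive.ofMul (C⁻¹ * ∏ i, c (w i)) = 0 ↔ ∏ i, c (w i) = C := by
      rw [ofMul_eq_zero, inv_mul_eq_one]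
      exact ⟨fun h => h.symm, fun h => h.symm⟩
    by_cases h4 : ∏ i, c (w i) = C
    · rw [if_pos (h3.2 h4), if_pos h4, card_add]
    · rw [if_neg (fun h => h4 (h3.1 h)), if_neg h4]
  rw [Finset.sum_congr rfl (fun w _ => h2 w), ← Finset.sum_filter, Finset.sum_const,
    nsmul_eq_mul, mul_comm]

theorem lam_zero (c : P → G) : lam c 0 = (Fintype.card P : ℂ) := by
  unfold lam
  simp

/-- the distribution of the random products -/
theorem equi (c : P → G) (ρ : ℝ) (hρ : 0 ≤ ρ) (hN : 0 < Fintype.card P)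
    (hgap : ∀ ψ : AddChar (Additive G) ℂ, ψ ≠ 0 → ‖lam c ψ‖ ≤ ρ * Fintype.card P)
    (r : ℕ) (C : G) :
    |((((Finset.univ : Finset (Fin r → P)).filter (fun w => ∏ i, c (w i) = C)).card : ℝ)) /
      (Fintype.card P : ℝ) ^ r - 1 / (Fintype.card G : ℝ)| ≤ ρ ^ r := by
  have hG : (0 : ℝ) < Fintype.card G := by exact_mod_cast Fintype.card_pos
  have hNr : (0 : ℝ) < Fintype.card P := by exact_mod_cast hN
  set N : ℝ := (Fintype.card P : ℝ) with hNdef
  set g : ℝ := (Fintype.card G : ℝ) with hg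
  set T : ℝ := ((((Finset.univ : Finset (Fin r → P)).filter
    (fun w => ∏ i, c (w i) = C)).card : ℝ)) with hT
  have h := count c r C
  rw [← Finset.add_sum_erase Finset.univ _ (Finset.mem_univ (0 : AddChar (Additive G) ℂ)),
    lam_zero, AddChar.zero_apply, one_mul] at h
  have h2 : ‖∑ ψ ∈ Finset.univ.erase (0 : AddChar (Additive G) ℂ),
      ψ (Additive.ofMul C⁻¹) * (lam c ψ) ^ r‖ ≤ g * (ρ * N) ^ r := by
    refine (norm_sum_le _ _).trans ?_
    calc ∑ ψ ∈ Finset.univ.erase (0 : AddChar (Additive G) ℂ),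
          ‖ψ (Additive.ofMul C⁻¹) * (lam c ψ) ^ r‖
        ≤ ∑ ψ ∈ Finset.univ.erase (0 : AddChar (Additive G) ℂ), (ρ * N) ^ r := by
          refine Finset.sum_le_sum fun ψ hψ => ?_
          rw [norm_mul, AddChar.norm_apply, one_mul, norm_pow]
          exact pow_le_pow_left₀ (norm_nonneg _) (hgap ψ (Finset.ne_of_mem_erase hψ)) r
      _ ≤ ∑ ψ : AddChar (Additive G) ℂ, (ρ * N) ^ r :=
          Finset.sum_le_sum_of_subset_of_nonneg (Finset.erase_subset _ _)
            (fun _ _ _ => by positivity)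
      _ = g * (ρ * N) ^ r := by
          rw [Finset.sum_const, Finset.card_univ, AddChar.card_eq, nsmul_eq_mul, card_add]
  have h3 : ((g * T - N ^ r : ℝ) : ℂ) = ∑ ψ ∈ Finset.univ.erase (0 : AddChar (Additive G) ℂ),
      ψ (Additive.ofMul C⁻¹) * (lam c ψ) ^ r := by
    have h4 : ((g * T : ℝ) : ℂ) = (Fintype.card G : ℂ) * (((Finset.univ : Finset (Fin r → P)).filter
      (fun w => ∏ i, c (w i) = C)).card : ℂ) := by
      rw [hg, hT]
      push_cast
      rfl
    rw [Complex.ofReal_sub, h4, h, hNdef]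
    push_cast
    ring
  rw [← h3, Complex.norm_real, Real.norm_eq_abs] at h2
  have h5 : T / N ^ r - 1 / g = (g * T - N ^ r) / (g * N ^ r) := by
    field_simp
  rw [h5, abs_div, abs_of_pos (by positivity : 0 < g * N ^ r), div_le_iff₀ (by positivity)]
  refine h2.trans (le_of_eq ?_)
  rw [mul_pow]
  ring

/-- elements outside the kernel -/
theorem ker_le (c : P → G) (ρ : ℝ) (ψ : AddChar (Additive G) ℂ)
    (hgap : ‖lam c ψ‖ ≤ ρ * Fintype.card P) :
    ((((Finset.univ : Finset P).filter (fun p => ψ (Additive.ofMul (c p)) = 1)).card : ℝ)) ≤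
      (1 + ρ) / 2 * Fintype.card P := by
  set N : ℝ := (Fintype.card P : ℝ) with hNdef
  set k : ℝ := ((((Finset.univ : Finset P).filter
    (fun p => ψ (Additive.ofMul (c p)) = 1)).card : ℝ)) with hk
  have h1 : 2 * k - N ≤ (lam c ψ).re := by
    unfold lam
    rw [Complex.re_sum]
    have h2 : ∀ p : P, (2 * (if ψ (Additive.ofMul (c p)) = 1 then (1 : ℝ) else 0) - 1) ≤
        (ψ (Additive.ofMul (c p))).re := by
      intro p
      split_ifs with h
      · rw [h]; norm_num
      · have h3 := Complex.abs_re_le_norm (ψ (Additive.ofMul (c p)))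
        rw [AddChar.norm_apply] at h3
        have := (abs_le.1 h3).1
        linarith
    refine le_trans (le_of_eq ?_) (Finset.sum_le_sum fun p _ => h2 p)
    rw [Finset.sum_sub_distrib, ← Finset.mul_sum, Finset.sum_boole, Finset.sum_const,
      Finset.card_univ, nsmul_eq_mul, mul_one]
  have h3 : (lam c ψ).re ≤ ρ * N := ((le_abs_self _).trans (Complex.abs_re_le_norm _)).trans hgap
  linarith

/-- a proper subgroup is in the kernel of a nontrivial character -/
theorem exists_char (H : Subgroup G) (hH : H ≠ ⊤) :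
    ∃ ψ : AddChar (Additive G) ℂ, ψ ≠ 0 ∧ ∀ x ∈ H, ψ (Additive.ofMul x) = 1 := by
  obtain ⟨g, hg⟩ : ∃ g, g ∉ H := by
    by_contra hcon
    push Not at hcon
    exact hH (eq_top_iff.2 fun x _ => hcon x)
  have : Finite (G ⧸ H) := inferInstance
  have : Finite (Additive (G ⧸ H)) := inferInstance
  have hne : Additive.ofMul (QuotientGroup.mk g : G ⧸ H) ≠ 0 := by
    intro h
    rw [ofMul_eq_zero] at h
    exact hg ((QuotientGroup.eq_one_iff g).1 h)
  obtain ⟨φ, hφ⟩ := AddChar.exists_apply_ne_zero.2 hne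
  let q : Additive G →+ Additive (G ⧸ H) := MonoidHom.toAdditive (QuotientGroup.mk' H)
  refine ⟨φ.compAddMonoidHom q, ?_, ?_⟩
  · intro h
    apply hφ
    have h2 : (φ.compAddMonoidHom q) (Additive.ofMul g) = 1 := by
      rw [h, AddChar.zero_apply]
    exact h2
  · intro x hx
    have h3 : q (Additive.ofMul x) = 0 := by
      show Additive.ofMul (QuotientGroup.mk x : G ⧸ H) = 0
      rw [ofMul_eq_zero]
      exact (QuotientGroup.eq_one_iff x).2 hx
    show φ (q (Additive.ofMul x)) = 1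
    rw [h3, AddChar.map_zero_eq_one]

/-- few tuples do not generate -/
theorem nongen (c : P → G) (ρ : ℝ) (hρ : 0 ≤ ρ)
    (hgap : ∀ ψ : AddChar (Additive G) ℂ, ψ ≠ 0 → ‖lam c ψ‖ ≤ ρ * Fintype.card P)
    (r : ℕ) :
    ((((Finset.univ : Finset (Fin r → P)).filter
      (fun w => Subgroup.closure (Set.range (fun i => c (w i))) ≠ ⊤)).card : ℝ)) ≤
      (Fintype.card G : ℝ) * ((1 + ρ) / 2 * Fintype.card P) ^ r := by
  set N : ℝ := (Fintype.card P : ℝ) with hNdef
  let K : AddChar (Additive G) ℂ → Finset (Fin r → P) := fun ψ =>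
    Fintype.piFinset (fun _ : Fin r => (Finset.univ : Finset P).filter
      (fun p => ψ (Additive.ofMul (c p)) = 1))
  have hsub : (Finset.univ : Finset (Fin r → P)).filter
      (fun w => Subgroup.closure (Set.range (fun i => c (w i))) ≠ ⊤) ⊆
      (Finset.univ.erase (0 : AddChar (Additive G) ℂ)).biUnion K := by
    intro w hw
    obtain ⟨ψ, hψ, hker⟩ := exists_char _ (Finset.mem_filter.1 hw).2
    rw [Finset.mem_biUnion]
    refine ⟨ψ, Finset.mem_erase.2 ⟨hψ, Finset.mem_univ _⟩, ?_⟩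
    simp only [K, Fintype.mem_piFinset, Finset.mem_filter, Finset.mem_univ, true_and]
    intro i
    exact hker _ (Subgroup.subset_closure ⟨i, rfl⟩)
  have hcard : ∀ ψ : AddChar (Additive G) ℂ, ψ ≠ 0 → ((K ψ).card : ℝ) ≤
      ((1 + ρ) / 2 * N) ^ r := by
    intro ψ hψ
    simp only [K]
    rw [Fintype.card_piFinset, Finset.prod_const, Finset.card_univ, Fintype.card_fin]
    push_cast
    exact pow_le_pow_left₀ (Nat.cast_nonneg _) (ker_le c ρ ψ (hgap ψ hψ)) r
  have h1 := (Finset.card_le_card hsub).trans Finset.card_biUnion_le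
  calc ((((Finset.univ : Finset (Fin r → P)).filter
      (fun w => Subgroup.closure (Set.range (fun i => c (w i))) ≠ ⊤)).card : ℝ))
      ≤ ((∑ ψ ∈ Finset.univ.erase (0 : AddChar (Additive G) ℂ), (K ψ).card : ℕ) : ℝ) := by
        exact_mod_cast h1
    _ = ∑ ψ ∈ Finset.univ.erase (0 : AddChar (Additive G) ℂ), ((K ψ).card : ℝ) := by
        push_cast; rfl
    _ ≤ ∑ ψ ∈ Finset.univ.erase (0 : AddChar (Additive G) ℂ), ((1 + ρ) / 2 * N) ^ r :=
        Finset.sum_le_sum fun ψ hψ => hcard ψ (Finset.ne_of_mem_erase hψ)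
    _ ≤ ∑ ψ : AddChar (Additive G) ℂ, ((1 + ρ) / 2 * N) ^ r :=
        Finset.sum_le_sum_of_subset_of_nonneg (Finset.erase_subset _ _)
          (fun _ _ _ => by positivity)
    _ = (Fintype.card G : ℝ) * ((1 + ρ) / 2 * N) ^ r := by
        rw [Finset.sum_const, Finset.card_univ, AddChar.card_eq, nsmul_eq_mul, card_add]

end Pool.Agent.W24.SG
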