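import Pool.Agent.W24.SG.Gap
import Pool.Agent.H38R2.CG.LM
import Pool.Agent.H38R2.CG3.NC

/-!
# The number of tiny primes, and the class number
-/

set_option autoImplicit false

namespace Pool.Agent.W24.SG

open Finset Filter NumberField Pool.Agent.H38R2.CG Pool.Agent.H38R2.CG2 Pool.Agent.H951R5.AR
open Pool.Agent.H38R2.CG.NFh
open scoped Classical

variable {K : Type} [Field K] [NumberField K] {D : ℕ}

theorem phi_nn (t : ℝ) : 0 ≤ phi t := le_max_left _ _

theorem Rsum_nn (D n : ℕ) : 0 ≤ Rsum D n := by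
  unfold Rsum
  refine Finset.sum_nonneg fun u _ => Finset.sum_nonneg fun v _ => ?_
  split_ifs
  · exact phi_nn _
  · exact le_rfl

theorem phi_zero' : phi 0 = 1 := by
  unfold phi
  simp

/-- the diagonal -/
theorem Rsum_sq (D m : ℕ) (hm : 0 < m) : 1 ≤ Rsum D (m * m) := by
  unfold Rsum
  have hu : 2 * m ∈ Finset.Icc 1 (4 * (m * m)) := by
    rw [Finset.mem_Icc]
    constructor
    · omega
    · nlinarith
  have hv : (0 : ℤ) ∈ Finset.Icc (-(4 * ((m * m : ℕ) : ℤ))) (4 * ((m * m : ℕ) : ℤ)) := by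
    rw [Finset.mem_Icc]
    constructor
    · have : (0 : ℤ) ≤ ((m * m : ℕ) : ℤ) := Int.natCast_nonneg _
      linarith
    · positivity
  have hnn : ∀ (u : ℕ) (v : ℤ), 0 ≤ (if ((u : ℤ) ^ 2 - (D : ℤ) * v ^ 2 = 4 * ((m * m : ℕ) : ℤ)) then
      phi (Real.log (((u : ℝ) + v * √(D : ℝ)) / ((u : ℝ) - v * √(D : ℝ)))) else 0) := by
    intro u v
    split_ifs
    · exact phi_nn _
    · exact le_rfl
  refine le_trans ?_ (Finset.single_le_sum (fun u _ => Finset.sum_nonneg fun v _ => hnn u v) hu)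
  refine le_trans ?_ (Finset.single_le_sum (fun v _ => hnn _ v) hv)
  rw [if_pos]
  · have h1 : (((2 * m : ℕ) : ℝ) + ((0 : ℤ) : ℝ) * √(D : ℝ)) /
        (((2 * m : ℕ) : ℝ) - ((0 : ℤ) : ℝ) * √(D : ℝ)) = 1 := by
      have h2 : ((2 * m : ℕ) : ℝ) ≠ 0 := by
        have : 2 * m ≠ 0 := by omega
        exact_mod_cast this
      rw [Int.cast_zero, zero_mul, add_zero, sub_zero, div_self h2]
    rw [h1, Real.log_one, phi_zero']
  · push_cast
    ring

/-- the unit -/
theorem Rsum_one (D : ℕ) (hD : 12 < D) : Rsum D 1 ≤ 1 := by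
  unfold Rsum
  have h1 : ∀ u ∈ (Finset.Icc 1 (4 * 1) : Finset ℕ), ∑ v ∈ Finset.Icc (-(4 * ((1 : ℕ) : ℤ))) (4 * ((1 : ℕ) : ℤ)),
      (if ((u : ℤ) ^ 2 - (D : ℤ) * v ^ 2 = 4 * ((1 : ℕ) : ℤ)) then
      phi (Real.log (((u : ℝ) + v * √(D : ℝ)) / ((u : ℝ) - v * √(D : ℝ)))) else 0) =
      if u = 2 then 1 else 0 := by
    intro u hu
    rw [Finset.mem_Icc] at hu
    rw [Finset.sum_eq_single 0]
    · by_cases h2 : u = 2
      · subst h2
        rw [if_pos (by norm_num), if_pos rfl]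
        norm_num
        exact phi_zero'
      · rw [if_neg, if_neg h2]
        intro h3
        have h4 : (u : ℤ) ^ 2 = 4 := by push_cast at h3; linarith
        have h5 : (u : ℤ) = 2 := by nlinarith [hu.1]
        exact h2 (by exact_mod_cast h5)
    · intro v _ hv
      rw [if_neg]
      intro h3
      have h4 : (1 : ℤ) ≤ v ^ 2 := by
        have : 0 < v ^ 2 := by positivity
        linarith
      have h5 : (u : ℤ) ≤ 4 := by exact_mod_cast hu.2
      have h6 : (0 : ℤ) ≤ u := by positivity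
      have h7 : (12 : ℤ) < D := by exact_mod_cast hD
      push_cast at h3
      nlinarith
    · intro h3
      exfalso
      apply h3
      rw [Finset.mem_Icc]
      norm_num
  rw [Finset.sum_congr rfl h1, Finset.sum_ite_eq']
  split_ifs <;> norm_num

/-- the volume of the Arakelov class group is at least one -/
theorem vol_one (hN0 : P_N0) (hN5 : P_N5) (hN6 : P_N6) (hN3 : P_N3) (hD : IsFund D)
    (hD12 : 12 < D)
    (h2 : Module.finrank ℚ K = 2) (hK : NumberField.discr K = (D : ℤ)) :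
    1 ≤ 2 * √(D : ℝ) * Lone D := by
  obtain ⟨e⟩ := hN0 K D hD h2 hK
  have hL : 0 ≤ Lone D := (hN3 K D hD h2 hK).1
  have h := (hN5 K D hD h2 hK e Unit (fun _ => 1) (fun _ => 1) (fun _ => zero_le_one)).1
  simp only [Finset.univ_unique, Finset.sum_singleton, one_pow, one_mul] at h
  have h6 := hN6 K D hD h2 hK e ∅ ∅ (by simp) (by simp) {⊤} {⊤} (by simp [prodS]) (by simp [prodS])
  rw [Finset.sum_singleton, Finset.sum_singleton] at h6
  have h7 : prodS ∅ * prodS ∅ = 1 := by simp [prodS]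
  rw [h7, Finset.empty_inter, Finset.card_empty, pow_zero, one_mul] at h6
  have h8 := h6.trans (Rsum_one D hD12)
  have h9 : KAB e ((1 : nonZeroDivisors (Ideal (𝓞 K))) : Ideal (𝓞 K))
      ((1 : nonZeroDivisors (Ideal (𝓞 K))) : Ideal (𝓞 K)) = KAB e ⊤ ⊤ := by
    have : ((1 : nonZeroDivisors (Ideal (𝓞 K))) : Ideal (𝓞 K)) = ⊤ := Ideal.one_eq_top
    rw [this]
  rw [h9] at h
  have hc : 0 ≤ 2 * √(D : ℝ) * Lone D := by positivity
  calc (1 : ℝ) ≤ 2 * √(D : ℝ) * Lone D * KAB e ⊤ ⊤ := h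
    _ ≤ 2 * √(D : ℝ) * Lone D * 1 := mul_le_mul_of_nonneg_left h8 hc
    _ = _ := mul_one _

/-- lower bound for the near collision sum -/
theorem SD_low (D y k : ℕ) : (2 : ℝ) ^ k * ((PP y).card.choose k : ℝ) ≤
    SD D ((PP y).powersetCard k) (fun _ => 1) := by
  unfold SD
  have h1 : ∀ s ∈ (PP y).powersetCard k, (2 : ℝ) ^ k ≤
      ∑ t ∈ (PP y).powersetCard k, (1 : ℝ) * 1 * 2 ^ ((s ∩ t).card) *
        Rsum D (prodS s * prodS t) := by
    intro s hs
    refine le_trans ?_ (Finset.single_le_sum (fun t _ => ?_) hs)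
    · rw [Finset.inter_self, (mem_powersetCard.1 hs).2]
      have hp : 0 < prodS s := prodS_pos fun p hp => by
        have := (mem_powersetCard.1 hs).1 hp
        exact (Finset.mem_filter.1 this).2
      have := Rsum_sq D (prodS s) hp
      nlinarith [pow_pos (two_pos : (0 : ℝ) < 2) k]
    · exact mul_nonneg (by positivity) (Rsum_nn _ _)
  refine le_trans ?_ (Finset.sum_le_sum h1)
  rw [Finset.sum_const, Finset.card_powersetCard, nsmul_eq_mul, mul_comm]

theorem fact_low (k : ℕ) : (k : ℝ) ^ k ≤ Real.exp k * k.factorial := by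
  have h := Real.pow_div_factorial_le_exp (k : ℝ) (Nat.cast_nonneg k) k
  rw [div_le_iff₀ (by positivity)] at h
  exact h

/-- the number of the tiny primes -/
theorem N_low (hN0 : P_N0) (hN1 : P_N1) (hN5 : P_N5) (hN6 : P_N6) (hN3 : P_N3) (hD : IsFund D)
    (hD12 : 12 < D)
    (h2 : Module.finrank ℚ K = 2) (hK : NumberField.discr K = (D : ℤ)) {y k : ℕ} (hy : 2 ≤ y)
    (hk : 1 ≤ k) (hPk : 2 * k ≤ (PP y).card)
    (hnb : 2 * √(D : ℝ) * Lone D * SD D ((PP y).powersetCard k) (fun _ => 1) <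
      (1 + 1 / 50) * (MD D ((PP y).powersetCard k) (fun _ => 1)) ^ 2) :
    ((PP y).card : ℝ) * k / 3 ≤ (Nn K y) ^ 2 := by
  have hMD := MD_eq hN1 hD h2 hK (K := K) (k := k) hy
  rw [hMD] at hnb
  set b : ℕ → ℝ := fun p => ((U K p).card : ℝ) with hb
  set M : ℝ := ES (PP y) k b with hM
  have hb0 : ∀ p ∈ PP y, 0 ≤ b p := fun p _ => Nat.cast_nonneg _
  have hM0 : 0 ≤ M := ES_nonneg _ _ _ hb0
  have hup := ES_upper (PP y) k b hb0
  have hNdef : ∑ p ∈ PP y, b p = Nn K y := rfl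
  rw [hNdef, ← hM] at hup
  have hN0' : 0 ≤ Nn K y := Finset.sum_nonneg hb0
  have hv := vol_one hN0 hN5 hN6 hN3 hD hD12 h2 hK
  have hSD := SD_low D y k
  set P : ℕ := (PP y).card with hP
  have hSD0 : 0 ≤ SD D ((PP y).powersetCard k) (fun _ => 1) := le_trans (by positivity) hSD
  have h3 : (2 : ℝ) ^ k * (P.choose k : ℝ) ≤ (51 / 50) * M ^ 2 := by
    calc (2 : ℝ) ^ k * (P.choose k : ℝ) ≤ SD D ((PP y).powersetCard k) (fun _ => 1) := hSD
      _ ≤ 2 * √(D : ℝ) * Lone D * SD D ((PP y).powersetCard k) (fun _ => 1) :=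
          le_mul_of_one_le_left hSD0 hv
      _ ≤ (51 / 50) * M ^ 2 := by
          have : (1 + 1 / 50 : ℝ) = 51 / 50 := by norm_num
          rw [this] at hnb
          exact hnb.le
  -- multiply by k!^2
  set f : ℝ := (k.factorial : ℝ) with hf
  have hf0 : 0 < f := by rw [hf]; positivity
  have h5 : (2 : ℝ) ^ k * ((P.choose k : ℝ) * f) * f ≤ (51 / 50) * (Nn K y) ^ k * (Nn K y) ^ k := by
    calc (2 : ℝ) ^ k * ((P.choose k : ℝ) * f) * f = ((2 : ℝ) ^ k * (P.choose k : ℝ)) * f ^ 2 := by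
          ring
      _ ≤ (51 / 50) * M ^ 2 * f ^ 2 := mul_le_mul_of_nonneg_right h3 (by positivity)
      _ = (51 / 50) * ((f * M) * (f * M)) := by ring
      _ ≤ (51 / 50) * ((Nn K y) ^ k * (Nn K y) ^ k) := by
          apply mul_le_mul_of_nonneg_left _ (by norm_num)
          exact mul_le_mul hup hup (by positivity) (by positivity)
      _ = _ := by ring
  have h6 : ((P : ℝ) / 2) ^ k ≤ (P.choose k : ℝ) * f := by
    have h7 : ((P + 1 - k) ^ k : ℕ) ≤ P.descFactorial k := Nat.pow_sub_le_descFactorial P k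
    have h8 : P.descFactorial k = k.factorial * P.choose k :=
      Nat.descFactorial_eq_factorial_mul_choose P k
    have h9 : ((P + 1 - k : ℕ) : ℝ) ^ k ≤ f * (P.choose k : ℝ) := by
      rw [h8] at h7
      have : (((P + 1 - k) ^ k : ℕ) : ℝ) ≤ ((k.factorial * P.choose k : ℕ) : ℝ) := by
        exact_mod_cast h7
      push_cast at this
      exact this
    rw [mul_comm (P.choose k : ℝ)]
    refine le_trans ?_ h9
    apply pow_le_pow_left₀ (by positivity)
    have h10 : k ≤ P + 1 := by omega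
    rw [Nat.cast_sub h10]
    have h11 : 2 * (k : ℝ) ≤ P := by exact_mod_cast hPk
    push_cast
    linarith
  have hkr : (0 : ℝ) < k := by exact_mod_cast hk
  have h12 : ((P : ℝ) * k / Real.exp 1) ^ k ≤ (51 / 50) * ((Nn K y) ^ 2) ^ k := by
    have h13 : (k : ℝ) ^ k / Real.exp 1 ^ k ≤ f := by
      rw [div_le_iff₀ (by positivity), ← Real.exp_nat_mul, mul_one, mul_comm]
      exact fact_low k
    calc ((P : ℝ) * k / Real.exp 1) ^ k = (2 : ℝ) ^ k * ((P : ℝ) / 2) ^ k *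
          ((k : ℝ) ^ k / Real.exp 1 ^ k) := by
          rw [div_pow, mul_pow, div_pow]
          field_simp
      _ ≤ (2 : ℝ) ^ k * ((P.choose k : ℝ) * f) * f := by
          apply mul_le_mul _ h13 (by positivity) (by positivity)
          exact mul_le_mul_of_nonneg_left h6 (by positivity)
      _ ≤ (51 / 50) * (Nn K y) ^ k * (Nn K y) ^ k := h5
      _ = (51 / 50) * ((Nn K y) ^ 2) ^ k := by ring
  have h14 : (P : ℝ) * k / Real.exp 1 ≤ (51 / 50) * (Nn K y) ^ 2 := by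
    by_contra hcon
    push Not at hcon
    have h15 : ((51 / 50) * (Nn K y) ^ 2) ^ k < ((P : ℝ) * k / Real.exp 1) ^ k :=
      pow_lt_pow_left₀ hcon (by positivity) (by omega)
    rw [mul_pow] at h15
    have h16 : (51 / 50 : ℝ) ≤ (51 / 50) ^ k := le_self_pow₀ (by norm_num) (by omega)
    have h17 : (0 : ℝ) ≤ ((Nn K y) ^ 2) ^ k := by positivity
    have := mul_le_mul_of_nonneg_right h16 h17
    linarith
  have he := Real.exp_one_lt_d9
  have he0 := Real.exp_pos 1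
  rw [div_le_iff₀ he0] at h14
  have hN2 : 0 ≤ (Nn K y) ^ 2 := sq_nonneg _
  nlinarith

/-- the class number -/
theorem h_le (hN0 : P_N0) (hN1 : P_N1) (hN3 : P_N3) (h4 : P_N4) (hKF : P_KF)
    (h5b : P_N5b) (hN6 : P_N6) (hD : IsFund D) (hD12 : 12 < D)
    (h2 : Module.finrank ℚ K = 2) (hK : NumberField.discr K = (D : ℤ)) :
    (Nat.card (ClassGroup (𝓞 K)) : ℝ) ≤ 2 * √(D : ℝ) * Lone D := by
  have hL : 0 ≤ Lone D := (hN3 K D hD h2 hK).1
  have h := (Pool.Agent.H38R2.CG3.nf_classes hN0 hN1 hN3 h4 hKF h5b hN6 K D hD h2 hK {∅}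
    (fun _ => 1) (by simp)).1
  have hMC : Pool.Agent.H38R2.CG3.MC K {∅} (fun _ => 1) 1 = 1 := by
    unfold Pool.Agent.H38R2.CG3.MC
    rw [Finset.sum_singleton, one_mul]
    have h1 : Nat.card {I : nonZeroDivisors (Ideal (𝓞 K)) //
        Ideal.absNorm (I : Ideal (𝓞 K)) = prodS ∅ ∧ ClassGroup.mk0 I = 1} = 1 := by
      rw [Nat.card_eq_one_iff_unique]
      refine ⟨⟨?_⟩, ⟨⟨1, ?_, ?_⟩⟩⟩
      · rintro ⟨I, hI, _⟩ ⟨J, hJ, _⟩
        simp only [prodS, Finset.prod_empty, Ideal.absNorm_eq_one_iff] at hI hJ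
        apply Subtype.ext
        apply Subtype.ext
        rw [hI, hJ]
      · simp [prodS]
      · exact map_one _
    rw [h1]
    norm_num
  have hsum : (1 : ℝ) ≤ ∑ C : ClassGroup (𝓞 K),
      (Pool.Agent.H38R2.CG3.MC K {∅} (fun _ => 1) C) ^ 2 := by
    refine le_trans (le_of_eq ?_) (Finset.single_le_sum (fun C _ => sq_nonneg _)
      (Finset.mem_univ (1 : ClassGroup (𝓞 K))))
    rw [hMC, one_pow]
  have hSD : SD D {∅} (fun _ => 1) ≤ 1 := by
    unfold SD
    rw [Finset.sum_singleton, Finset.sum_singleton]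
    have h7 : prodS ∅ * prodS ∅ = 1 := by simp [prodS]
    rw [h7]
    simpa using Rsum_one D hD12
  have hh : (0 : ℝ) ≤ Nat.card (ClassGroup (𝓞 K)) := Nat.cast_nonneg _
  calc (Nat.card (ClassGroup (𝓞 K)) : ℝ) = Nat.card (ClassGroup (𝓞 K)) * 1 := (mul_one _).symm
    _ ≤ Nat.card (ClassGroup (𝓞 K)) * ∑ C : ClassGroup (𝓞 K),
      (Pool.Agent.H38R2.CG3.MC K {∅} (fun _ => 1) C) ^ 2 := mul_le_mul_of_nonneg_left hsum hh
    _ ≤ 2 * √(D : ℝ) * Lone D * SD D {∅} (fun _ => 1) := h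
    _ ≤ 2 * √(D : ℝ) * Lone D * 1 := mul_le_mul_of_nonneg_left hSD (by positivity)
    _ = _ := mul_one _

/-- the class number is at most D/4 -/
theorem h_small (hN3a : P_N3a) : ∃ D0 : ℕ, ∀ D : ℕ, D0 ≤ D → IsFund D →
    2 * √(D : ℝ) * Lone D ≤ (D : ℝ) / 4 := by
  obtain ⟨C, hC, hN⟩ := hN3a
  -- log D is small
  have hlog : ∀ᶠ x : ℝ in atTop, ‖Real.log x‖ ≤ (1 / (8 * (2 + C))) * ‖x ^ (1 / 2 : ℝ)‖ :=
    (isLittleO_log_rpow_atTop (by norm_num : (0 : ℝ) < 1 / 2)).bound (by positivity)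
  obtain ⟨x0, hx0⟩ := Filter.eventually_atTop.1 hlog
  refine ⟨⌈x0⌉₊ + 3, fun D hD hf => ?_⟩
  have hDx : x0 ≤ (D : ℝ) := by
    have h1 : x0 ≤ ⌈x0⌉₊ := Nat.le_ceil _
    have h2 : ((⌈x0⌉₊ : ℕ) : ℝ) ≤ D := by exact_mod_cast (by omega : ⌈x0⌉₊ ≤ D)
    linarith
  have hD3 : (3 : ℝ) ≤ D := by exact_mod_cast (by omega : 3 ≤ D)
  have h3 := hx0 D hDx
  have hl1 : 1 ≤ Real.log D := by
    rw [Real.le_log_iff_exp_le (by linarith)]
    have := Real.exp_one_lt_d9
    linarith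
  rw [Real.norm_eq_abs, Real.norm_eq_abs, abs_of_nonneg (by linarith),
    abs_of_nonneg (by positivity), ← Real.sqrt_eq_rpow] at h3
  have h5 := hN D hf D (by omega)
  have h6 : ∑ n ∈ Finset.Icc 1 D, (chi D n : ℝ) / n ≤ 1 + Real.log D := by
    refine le_trans (Finset.sum_le_sum fun n _ => ?_) (LMh.sum_inv_le D)
    have h7 := LMh.chi_abs_le' (D : ℤ) n
    have h8 := (abs_le.1 h7).2
    exact div_le_div_of_nonneg_right h8 (Nat.cast_nonneg n)
  have hsq : 0 < √(D : ℝ) := Real.sqrt_pos.2 (by linarith)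
  have hss : √(D : ℝ) * √(D : ℝ) = D := Real.mul_self_sqrt (by linarith)
  have hsq1 : 1 ≤ √(D : ℝ) := by
    rw [Real.one_le_sqrt]
    linarith
  have h9 : C * √(D : ℝ) * Real.log D / D ≤ C * Real.log D := by
    rw [div_le_iff₀ (by linarith)]
    have h10 : √(D : ℝ) ≤ D := by nlinarith
    have h11 : 0 ≤ C * Real.log D := by positivity
    nlinarith
  have h12 : Lone D ≤ (2 + C) * Real.log D := by
    have := (abs_le.1 h5).2
    nlinarith
  calc 2 * √(D : ℝ) * Lone D ≤ 2 * √(D : ℝ) * ((2 + C) * Real.log D) :=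
        mul_le_mul_of_nonneg_left h12 (by positivity)
    _ ≤ 2 * √(D : ℝ) * ((2 + C) * (1 / (8 * (2 + C)) * √(D : ℝ))) := by
        apply mul_le_mul_of_nonneg_left _ (by positivity)
        exact mul_le_mul_of_nonneg_left h3 (by positivity)
    _ = (√(D : ℝ) * √(D : ℝ)) / 4 := by
        field_simp
        norm_num
    _ = (D : ℝ) / 4 := by rw [hss]

end Pool.Agent.W24.SG
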