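import Mathlib

/-!
# Elementary symmetric sums: two inequalities
-/

set_option autoImplicit false

namespace Pool.Agent.W24.SG

open Finset
open scoped Classical

/-- elementary symmetric sum over a finite set -/
noncomputable def ES (P : Finset ℕ) (k : ℕ) (b : ℕ → ℝ) : ℝ :=
  ∑ s ∈ P.powersetCard k, ∏ p ∈ s, b p

theorem ES_nonneg (P : Finset ℕ) (k : ℕ) (b : ℕ → ℝ) (hb : ∀ p ∈ P, 0 ≤ b p) : 0 ≤ ES P k b :=
  Finset.sum_nonneg fun s hs => Finset.prod_nonneg fun p hp =>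
    hb p ((mem_powersetCard.1 hs).1 hp)

/-- telescoping of a product -/
theorem tel (s : Finset ℕ) (b c : ℕ → ℝ) (hb : ∀ p ∈ s, |c p| ≤ b p) :
    |∏ p ∈ s, c p| ≤ ∏ p ∈ s, b p ∧
    ∏ p ∈ s, b p - ∏ p ∈ s, c p ≤ ∑ p ∈ s, (b p - c p) * ∏ q ∈ s.erase p, b q := by
  induction s using Finset.induction_on with
  | empty => simp
  | insert a s ha ih =>
    obtain ⟨ih1, ih2⟩ := ih fun p hp => hb p (mem_insert_of_mem hp)
    have hba : |c a| ≤ b a := hb a (mem_insert_self _ _)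
    have hb0 : ∀ p ∈ insert a s, 0 ≤ b p := fun p hp => (abs_nonneg _).trans (hb p hp)
    have hba0 : 0 ≤ b a := hb0 a (mem_insert_self _ _)
    have hP0 : 0 ≤ ∏ p ∈ s, b p := Finset.prod_nonneg fun p hp => hb0 p (mem_insert_of_mem hp)
    refine ⟨?_, ?_⟩
    · rw [prod_insert ha, prod_insert ha, abs_mul]
      exact mul_le_mul hba ih1 (abs_nonneg _) hba0
    · rw [prod_insert ha, prod_insert ha, sum_insert ha, erase_insert ha]
      have e1 : ∀ p ∈ s, (b p - c p) * ∏ q ∈ (insert a s).erase p, b q =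
          b a * ((b p - c p) * ∏ q ∈ s.erase p, b q) := by
        intro p hp
        have hpa : p ≠ a := fun h => ha (h ▸ hp)
        rw [erase_insert_of_ne hpa.symm, prod_insert (fun h => ha (mem_of_mem_erase h))]
        ring
      rw [sum_congr rfl e1, ← mul_sum]
      have h1 : b a * (∏ p ∈ s, b p - ∏ p ∈ s, c p) ≤
          b a * ∑ p ∈ s, (b p - c p) * ∏ q ∈ s.erase p, b q :=
        mul_le_mul_of_nonneg_left ih2 hba0
      have h2 : (b a - c a) * ∏ p ∈ s, c p ≤ (b a - c a) * ∏ p ∈ s, b p := by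
        apply mul_le_mul_of_nonneg_left ((le_abs_self _).trans ih1)
        linarith [(abs_le.1 hba).2]
      nlinarith

/-- the pairs (s, p) with p in s inject into the pairs (p, s without p) -/
theorem dbl_le (P : Finset ℕ) (k : ℕ) (F : ℕ → Finset ℕ → ℝ)
    (hF : ∀ p ∈ P, ∀ s ∈ P.powersetCard k, 0 ≤ F p s) :
    ∑ s ∈ P.powersetCard (k + 1), ∑ p ∈ s, F p (s.erase p) ≤
      ∑ p ∈ P, ∑ s ∈ P.powersetCard k, F p s := by
  rw [← Finset.sum_product' P (P.powersetCard k) F]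
  rw [Finset.sum_sigma' (P.powersetCard (k + 1)) (fun s => s) (fun s p => F p (s.erase p))]
  set S := (P.powersetCard (k + 1)).sigma (fun s => s) with hS
  let j : (Σ _ : Finset ℕ, ℕ) → ℕ × Finset ℕ := fun x => (x.2, x.1.erase x.2)
  have hinj : Set.InjOn j (S : Set (Σ _ : Finset ℕ, ℕ)) := by
    rintro ⟨s, p⟩ h1 ⟨t, q⟩ h2 h
    simp only [hS, Finset.mem_coe, Finset.mem_sigma] at h1 h2
    simp only [j, Prod.mk.injEq] at h
    obtain ⟨rfl, h3⟩ := h
    have h4 : s = t := by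
      rw [← Finset.insert_erase h1.2, h3, Finset.insert_erase h2.2]
    rw [h4]
  have h1 : ∑ x ∈ S, F x.2 (x.1.erase x.2) = ∑ y ∈ S.image j, F y.1 y.2 := by
    rw [Finset.sum_image hinj]
  rw [h1]
  refine Finset.sum_le_sum_of_subset_of_nonneg ?_ ?_
  · intro y hy
    obtain ⟨⟨s, p⟩, hx, rfl⟩ := Finset.mem_image.1 hy
    simp only [hS, Finset.mem_sigma, mem_powersetCard] at hx
    rw [Finset.mem_product]
    refine ⟨hx.1.1 hx.2, ?_⟩
    rw [mem_powersetCard]
    refine ⟨(Finset.erase_subset _ _).trans hx.1.1, ?_⟩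
    show (s.erase p).card = k
    rw [Finset.card_erase_of_mem hx.2, hx.1.2]
    rfl
  · intro y hy _
    rw [Finset.mem_product] at hy
    exact hF y.1 hy.1 y.2 hy.2

/-- the pairs (s, p) with p not in s inject into the pairs (s with p, p) -/
theorem dbl_ge (P : Finset ℕ) (k : ℕ) (F : ℕ → Finset ℕ → ℝ)
    (hF : ∀ p ∈ P, ∀ s ∈ P.powersetCard k, 0 ≤ F p s) :
    ∑ s ∈ P.powersetCard k, ∑ p ∈ P \ s, F p s ≤
      ∑ s ∈ P.powersetCard (k + 1), ∑ p ∈ s, F p (s.erase p) := by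
  rw [Finset.sum_sigma' (P.powersetCard (k + 1)) (fun s => s) (fun s p => F p (s.erase p))]
  rw [Finset.sum_sigma' (P.powersetCard k) (fun s => P \ s) (fun s p => F p s)]
  set S := (P.powersetCard k).sigma (fun s => P \ s) with hS
  let j : (Σ _ : Finset ℕ, ℕ) → (Σ _ : Finset ℕ, ℕ) := fun x => ⟨insert x.2 x.1, x.2⟩
  have hmem : ∀ x ∈ S, x.2 ∉ x.1 := by
    rintro ⟨s, p⟩ hx
    simp only [hS, Finset.mem_sigma, Finset.mem_sdiff] at hx
    exact hx.2.2
  have hinj : Set.InjOn j (S : Set (Σ _ : Finset ℕ, ℕ)) := by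
    rintro ⟨s, p⟩ h1 ⟨t, q⟩ h2 h
    simp only [j, Sigma.mk.injEq, heq_eq_eq] at h
    obtain ⟨h3, rfl⟩ := h
    have h4 : s = t := by
      have h5 : (insert p s).erase p = (insert p t).erase p := by
        show (insert p s).erase p = (insert p t).erase p
        exact congrArg (fun u : Finset ℕ => u.erase p) h3
      rwa [Finset.erase_insert (hmem _ h1), Finset.erase_insert (hmem _ h2)] at h5
    rw [h4]
  have h1 : ∑ x ∈ S, F x.2 x.1 = ∑ y ∈ S.image j, F y.2 (y.1.erase y.2) := by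
    rw [Finset.sum_image hinj]
    refine Finset.sum_congr rfl fun x hx => ?_
    show F x.2 x.1 = F x.2 ((insert x.2 x.1).erase x.2)
    rw [Finset.erase_insert (hmem x hx)]
  rw [h1]
  refine Finset.sum_le_sum_of_subset_of_nonneg ?_ ?_
  · intro y hy
    obtain ⟨⟨s, p⟩, hx, rfl⟩ := Finset.mem_image.1 hy
    have hps := hmem _ hx
    simp only [hS, Finset.mem_sigma, mem_powersetCard, Finset.mem_sdiff] at hx
    simp only [j, Finset.mem_sigma, mem_powersetCard]
    refine ⟨⟨?_, ?_⟩, Finset.mem_insert_self _ _⟩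
    · exact Finset.insert_subset hx.2.1 hx.1.1
    · rw [Finset.card_insert_of_notMem hps, hx.1.2]
  · rintro ⟨s, p⟩ hy _
    simp only [Finset.mem_sigma, mem_powersetCard] at hy
    refine hF p (hy.1.1 hy.2) _ ?_
    rw [mem_powersetCard]
    refine ⟨(Finset.erase_subset _ _).trans hy.1.1, ?_⟩
    rw [Finset.card_erase_of_mem hy.2, hy.1.2]
    rfl

/-- the difference of two symmetric sums -/
theorem ES_sub_le (P : Finset ℕ) (k : ℕ) (b c : ℕ → ℝ) (hb : ∀ p ∈ P, |c p| ≤ b p) :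
    ES P (k + 1) b - ES P (k + 1) c ≤ (∑ p ∈ P, (b p - c p)) * ES P k b := by
  unfold ES
  rw [← Finset.sum_sub_distrib]
  calc ∑ s ∈ P.powersetCard (k + 1), (∏ p ∈ s, b p - ∏ p ∈ s, c p)
      ≤ ∑ s ∈ P.powersetCard (k + 1), ∑ p ∈ s, (b p - c p) * ∏ q ∈ s.erase p, b q := by
        refine Finset.sum_le_sum fun s hs => ?_
        exact (tel s b c fun p hp => hb p ((mem_powersetCard.1 hs).1 hp)).2
    _ ≤ ∑ p ∈ P, ∑ s ∈ P.powersetCard k, (b p - c p) * ∏ q ∈ s, b q := by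
        refine dbl_le P k (fun p s => (b p - c p) * ∏ q ∈ s, b q) ?_
        intro p hp s hs
        refine mul_nonneg ?_ (Finset.prod_nonneg fun q hq => ?_)
        · have := (abs_le.1 (hb p hp)).2
          linarith
        · exact (abs_nonneg _).trans (hb q ((mem_powersetCard.1 hs).1 hq))
    _ = (∑ p ∈ P, (b p - c p)) * ∑ s ∈ P.powersetCard k, ∏ p ∈ s, b p := by
        rw [Finset.sum_mul_sum]

/-- lower bound for a symmetric sum by the previous one -/
theorem ES_lower (P : Finset ℕ) (k : ℕ) (b : ℕ → ℝ) (hb : ∀ p ∈ P, 0 ≤ b p ∧ b p ≤ 2) :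
    (∑ p ∈ P, b p - 2 * k) * ES P k b ≤ (k + 1) * ES P (k + 1) b := by
  have hb0 : ∀ p ∈ P, ∀ s ∈ P.powersetCard k, 0 ≤ b p * ∏ q ∈ s, b q := by
    intro p hp s hs
    exact mul_nonneg (hb p hp).1 (Finset.prod_nonneg fun q hq =>
      (hb q ((mem_powersetCard.1 hs).1 hq)).1)
  have h1 := dbl_ge P k (fun p s => b p * ∏ q ∈ s, b q) hb0
  have h2 : ∑ s ∈ P.powersetCard (k + 1), ∑ p ∈ s, b p * ∏ q ∈ s.erase p, b q =
      (k + 1) * ES P (k + 1) b := by
    unfold ES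
    rw [Finset.mul_sum]
    refine Finset.sum_congr rfl fun s hs => ?_
    have h3 : ∀ p ∈ s, b p * ∏ q ∈ s.erase p, b q = ∏ q ∈ s, b q := fun p hp =>
      Finset.mul_prod_erase s b hp
    rw [Finset.sum_congr rfl h3, Finset.sum_const, (mem_powersetCard.1 hs).2, nsmul_eq_mul]
    push_cast
    ring
  rw [h2] at h1
  refine le_trans ?_ h1
  unfold ES
  rw [Finset.mul_sum]
  refine Finset.sum_le_sum fun s hs => ?_
  rw [← Finset.sum_mul]
  obtain ⟨hsP, hsc⟩ := mem_powersetCard.1 hs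
  have h3 : 0 ≤ ∏ q ∈ s, b q := Finset.prod_nonneg fun q hq => (hb q (hsP hq)).1
  refine mul_le_mul_of_nonneg_right ?_ h3
  have h4 : ∑ p ∈ P \ s, b p + ∑ p ∈ s, b p = ∑ p ∈ P, b p := Finset.sum_sdiff hsP
  have h5 : ∑ p ∈ s, b p ≤ 2 * k := by
    calc ∑ p ∈ s, b p ≤ ∑ p ∈ s, (2 : ℝ) := Finset.sum_le_sum fun p hp => (hb p (hsP hp)).2
      _ = 2 * k := by rw [Finset.sum_const, hsc, nsmul_eq_mul]; ring
  linarith

/-- upper bound for a symmetric sum -/
theorem ES_upper (P : Finset ℕ) (k : ℕ) (b : ℕ → ℝ) (hb : ∀ p ∈ P, 0 ≤ b p) :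
    (k.factorial : ℝ) * ES P k b ≤ (∑ p ∈ P, b p) ^ k := by
  have hN : 0 ≤ ∑ p ∈ P, b p := Finset.sum_nonneg hb
  induction k with
  | zero => simp [ES]
  | succ k ih =>
    have h1 := dbl_le P k (fun p s => b p * ∏ q ∈ s, b q) (by
      intro p hp s hs
      exact mul_nonneg (hb p hp) (Finset.prod_nonneg fun q hq =>
        hb q ((mem_powersetCard.1 hs).1 hq)))
    have h2 : ∑ s ∈ P.powersetCard (k + 1), ∑ p ∈ s, b p * ∏ q ∈ s.erase p, b q =
        (k + 1) * ES P (k + 1) b := by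
      unfold ES
      rw [Finset.mul_sum]
      refine Finset.sum_congr rfl fun s hs => ?_
      have h3 : ∀ p ∈ s, b p * ∏ q ∈ s.erase p, b q = ∏ q ∈ s, b q := fun p hp =>
        Finset.mul_prod_erase s b hp
      rw [Finset.sum_congr rfl h3, Finset.sum_const, (mem_powersetCard.1 hs).2, nsmul_eq_mul]
      push_cast
      ring
    have h3 : ∑ p ∈ P, ∑ s ∈ P.powersetCard k, b p * ∏ q ∈ s, b q =
        (∑ p ∈ P, b p) * ES P k b := by
      unfold ES
      rw [Finset.sum_mul_sum]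
    rw [h2, h3] at h1
    rw [Nat.factorial_succ, pow_succ]
    push_cast
    calc ((k : ℝ) + 1) * (k.factorial : ℝ) * ES P (k + 1) b
        = (k.factorial : ℝ) * (((k : ℝ) + 1) * ES P (k + 1) b) := by ring
      _ ≤ (k.factorial : ℝ) * ((∑ p ∈ P, b p) * ES P k b) :=
          mul_le_mul_of_nonneg_left h1 (Nat.cast_nonneg _)
      _ = ((k.factorial : ℝ) * ES P k b) * (∑ p ∈ P, b p) := by ring
      _ ≤ (∑ p ∈ P, b p) ^ k * (∑ p ∈ P, b p) := mul_le_mul_of_nonneg_right ih hN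

end Pool.Agent.W24.SG
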