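import Pool.Agent.W24.SG.Tw
import Pool.Agent.W24.SG.Comb
import Pool.Agent.H38R2.CG3.Fin
import Pool.Agent.H38R2.CG.N1

/-!
# The spectral gap from the inequality
-/

set_option autoImplicit false

namespace Pool.Agent.W24.SG

open Finset Filter NumberField Pool.Agent.H38R2.CG Pool.Agent.H38R2.CG2 Pool.Agent.H951R5.AR
open Pool.Agent.H38R2.CG.NFh
open scoped Classical ComplexConjugate

variable {K : Type} [Field K] [NumberField K] {D : ℕ}

/-- extension of a character to all ideals -/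
noncomputable def ex (χ : nonZeroDivisors (Ideal (𝓞 K)) →* Circle) (I : Ideal (𝓞 K)) : ℂ :=
  if h : I ∈ nonZeroDivisors (Ideal (𝓞 K)) then ((χ ⟨I, h⟩ : Circle) : ℂ) else 0

theorem ex_coe (χ : nonZeroDivisors (Ideal (𝓞 K)) →* Circle)
    (I : nonZeroDivisors (Ideal (𝓞 K))) : ex χ (I : Ideal (𝓞 K)) = ((χ I : Circle) : ℂ) := by
  unfold ex
  rw [dif_pos I.2]

theorem ex_mul (χ : nonZeroDivisors (Ideal (𝓞 K)) →* Circle) {I J : Ideal (𝓞 K)}
    (hI : I ≠ ⊥) (hJ : J ≠ ⊥) : ex χ (I * J) = ex χ I * ex χ J := by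
  have hI' : I ∈ nonZeroDivisors (Ideal (𝓞 K)) := mem_nonZeroDivisors_of_ne_zero hI
  have hJ' : J ∈ nonZeroDivisors (Ideal (𝓞 K)) := mem_nonZeroDivisors_of_ne_zero hJ
  have h1 : (⟨I, hI'⟩ * ⟨J, hJ'⟩ : nonZeroDivisors (Ideal (𝓞 K))) =
      ⟨I * J, mul_mem hI' hJ'⟩ := rfl
  unfold ex
  rw [dif_pos hI', dif_pos hJ', dif_pos (mul_mem hI' hJ'), ← h1, map_mul, Circle.coe_mul]

theorem norm_ex (χ : nonZeroDivisors (Ideal (𝓞 K)) →* Circle) (I : Ideal (𝓞 K)) :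
    ‖ex χ I‖ ≤ 1 := by
  unfold ex
  split_ifs
  · rw [Circle.norm_coe]
  · rw [norm_zero]; exact zero_le_one

theorem ne_bot_of_U {n : ℕ} (hn : n ≠ 0) {I : Ideal (𝓞 K)} (hI : I ∈ U K n) : I ≠ ⊥ := by
  rintro rfl
  rw [mem_U, Ideal.absNorm_bot] at hI
  exact hn hI.symm

/-- multiplicativity -/
theorem sum_mul {m n : ℕ} (hm : 0 < m) (hn : 0 < n) (h : m.Coprime n)
    (χ : nonZeroDivisors (Ideal (𝓞 K)) →* Circle) :
    ∑ I ∈ U K (m * n), ex χ I = (∑ I ∈ U K m, ex χ I) * ∑ I ∈ U K n, ex χ I := by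
  rw [Finset.sum_mul_sum, ← Finset.sum_product']
  symm
  refine Finset.sum_bij (fun p _ => p.1 * p.2) ?_ ?_ ?_ ?_
  · intro p hp
    rw [Finset.mem_product, mem_U, mem_U] at hp
    rw [mem_U, map_mul, hp.1, hp.2]
  · intro p hp q hq heq
    rw [Finset.mem_product, mem_U, mem_U] at hp hq
    have h1 := N1h.mul_sup h hp.1 hp.2
    have h2 := N1h.mul_sup h hq.1 hq.2
    have h3 := N1h.mul_sup h.symm hp.2 hp.1
    have h4 := N1h.mul_sup h.symm hq.2 hq.1
    rw [mul_comm p.2 p.1] at h3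
    rw [mul_comm q.2 q.1] at h4
    have heq' : p.1 * p.2 = q.1 * q.2 := heq
    rw [heq'] at h1 h3
    exact Prod.ext (h1.symm.trans h2) (h3.symm.trans h4)
  · intro I hI
    rw [mem_U] at hI
    obtain ⟨h1, h2⟩ := N1h.norm_sup hm hn h hI
    refine ⟨(I ⊔ Ideal.span {(m : 𝓞 K)}, I ⊔ Ideal.span {(n : 𝓞 K)}), ?_, N1h.sup_mul h hI⟩
    rw [Finset.mem_product, mem_U, mem_U]
    exact ⟨h1, h2⟩
  · intro p hp
    rw [Finset.mem_product] at hp
    exact (ex_mul χ (ne_bot_of_U hm.ne' hp.1) (ne_bot_of_U hn.ne' hp.2)).symm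

theorem sum_prodS (s : Finset ℕ) (hs : ∀ p ∈ s, p.Prime)
    (χ : nonZeroDivisors (Ideal (𝓞 K)) →* Circle) :
    ∑ I ∈ U K (prodS s), ex χ I = ∏ p ∈ s, ∑ I ∈ U K p, ex χ I := by
  induction s using Finset.induction_on with
  | empty =>
    have h1 : U K (prodS ∅) = {⊤} := by
      ext I
      rw [mem_U, Finset.mem_singleton]
      simp [prodS, Ideal.absNorm_eq_one_iff]
    rw [h1, Finset.sum_singleton, Finset.prod_empty]
    have h2 := ex_coe χ 1
    rw [map_one, Circle.coe_one] at h2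
    rw [← h2]
    congr 1
    exact Ideal.one_eq_top.symm
  | insert p s hps ih =>
    have hp := hs p (Finset.mem_insert_self _ _)
    have hs' : ∀ q ∈ s, q.Prime := fun q hq => hs q (Finset.mem_insert_of_mem hq)
    have e1 : prodS (insert p s) = p * prodS s := by
      unfold prodS
      rw [Finset.prod_insert hps]
    have hcop : p.Coprime (prodS s) := by
      unfold prodS
      refine Nat.Coprime.prod_right fun q hq => ?_
      refine (Nat.coprime_primes hp (hs' q hq)).2 ?_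
      rintro rfl
      exact hps hq
    rw [e1, sum_mul hp.pos (prodS_pos hs') hcop, ih hs', Finset.prod_insert hps]

/-- the character of a conjugate ideal -/
theorem ex_cj (e : Emb K D) (h2 : Module.finrank ℚ K = 2) (θ : ℝ)
    (χ : nonZeroDivisors (Ideal (𝓞 K)) →* Circle) (hχ : Hk e θ χ) {A : Ideal (𝓞 K)}
    (hA : A ≠ ⊥) : ex χ (cj A) = conj (ex χ A) := by
  obtain ⟨h1, h3⟩ := cj_spec h2 A hA
  have hc := cj_ne h2 A hA
  have hA' : A ∈ nonZeroDivisors (Ideal (𝓞 K)) := mem_nonZeroDivisors_of_ne_zero hA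
  set n : ℕ := Ideal.absNorm A with hn
  have hn0 : n ≠ 0 := by
    rw [hn, Ne, Ideal.absNorm_eq_zero_iff]
    exact hA
  have hnr : (0 : ℝ) < n := by exact_mod_cast Nat.pos_of_ne_zero hn0
  have hspan : Ideal.span {(n : 𝓞 K)} ≠ ⊥ := by
    rw [Ne, Ideal.span_singleton_eq_bot]
    exact_mod_cast hn0
  have hone : ex χ (Ideal.span {(n : 𝓞 K)}) = 1 := by
    have hmem : Ideal.span {(n : 𝓞 K)} ∈ nonZeroDivisors (Ideal (𝓞 K)) :=
      mem_nonZeroDivisors_of_ne_zero hspan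
    have hx : (n : K) ∈ XAB e ((1 : nonZeroDivisors (Ideal (𝓞 K))) : Ideal (𝓞 K))
        (Ideal.span {(n : 𝓞 K)}) := by
      refine ⟨by rw [map_natCast]; exact hnr, by rw [map_natCast]; exact hnr, ?_⟩
      have h5 : FractionalIdeal.spanSingleton (nonZeroDivisors (𝓞 K)) (((n : 𝓞 K)) : K) =
          ((Ideal.span {(n : 𝓞 K)} : Ideal (𝓞 K)) :
            FractionalIdeal (nonZeroDivisors (𝓞 K)) K) :=
        (FractionalIdeal.coeIdeal_span_singleton _).symm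
      rw [← h5]
      simp
    have h6 := hχ 1 ⟨_, hmem⟩ _ hx
    have h7 : ar e (n : K) = 0 := by
      unfold ar
      rw [map_natCast, map_natCast, div_self hnr.ne', Real.log_one]
    rw [h7, E_zero, one_mul, map_one, Circle.coe_one] at h6
    rw [← h6]
    unfold ex
    rw [dif_pos hmem]
  have h8 : ex χ A * ex χ (cj A) = 1 := by
    rw [← ex_mul χ hA hc, h1, hone]
  have h9 : ex χ A * conj (ex χ A) = 1 := by
    have h10 : ex χ A = ((χ ⟨A, hA'⟩ : Circle) : ℂ) := by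
      unfold ex
      rw [dif_pos hA']
    rw [h10, Complex.mul_conj, Circle.normSq_coe, Complex.ofReal_one]
  have h11 : ex χ A ≠ 0 := left_ne_zero_of_mul_eq_one h8
  exact mul_left_cancel₀ h11 (h8.trans h9.symm)

/-- the sums over the ideals of given norm are real -/
theorem sum_real (e : Emb K D) (h2 : Module.finrank ℚ K = 2) (θ : ℝ)
    (χ : nonZeroDivisors (Ideal (𝓞 K)) →* Circle) (hχ : Hk e θ χ) {n : ℕ} (hn : n ≠ 0) :
    conj (∑ I ∈ U K n, ex χ I) = ∑ I ∈ U K n, ex χ I := by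
  rw [map_sum]
  have hinj : Set.InjOn cj (U K n : Set (Ideal (𝓞 K))) := by
    intro A hA B hB h
    rw [Finset.mem_coe] at hA hB
    exact cj_inj h2 (ne_bot_of_U hn hA) (ne_bot_of_U hn hB)
      ((mem_U.1 hA).trans (mem_U.1 hB).symm) h
  have himg : (U K n).image cj = U K n := by
    apply Finset.eq_of_subset_of_card_le
    · intro B hB
      obtain ⟨A, hA, rfl⟩ := Finset.mem_image.1 hB
      rw [mem_U, (cj_spec h2 A (ne_bot_of_U hn hA)).2]
      exact mem_U.1 hA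
    · rw [Finset.card_image_of_injOn hinj]
  conv_rhs => rw [← himg]
  rw [Finset.sum_image hinj]
  refine Finset.sum_congr rfl fun A hA => ?_
  rw [ex_cj e h2 θ χ hχ (ne_bot_of_U hn hA)]

/-- the real numbers w(p) = sum of χ over the primes above p -/
noncomputable def cc' (χ : nonZeroDivisors (Ideal (𝓞 K)) →* Circle) (p : ℕ) : ℝ :=
  (∑ I ∈ U K p, ex χ I).re

theorem cc_eq (e : Emb K D) (h2 : Module.finrank ℚ K = 2) (θ : ℝ)
    (χ : nonZeroDivisors (Ideal (𝓞 K)) →* Circle) (hχ : Hk e θ χ) {n : ℕ} (hn : n ≠ 0) :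
    ∑ I ∈ U K n, ex χ I = ((cc' χ n : ℝ) : ℂ) :=
  (Complex.conj_eq_iff_re.1 (sum_real e h2 θ χ hχ hn)).symm

theorem cc_le (χ : nonZeroDivisors (Ideal (𝓞 K)) →* Circle) (p : ℕ) :
    |cc' χ p| ≤ ((U K p).card : ℝ) := by
  unfold cc'
  refine (Complex.abs_re_le_norm _).trans ((norm_sum_le _ _).trans ?_)
  calc ∑ I ∈ U K p, ‖ex χ I‖ ≤ ∑ I ∈ U K p, (1 : ℝ) := Finset.sum_le_sum fun I _ => norm_ex χ I
    _ = ((U K p).card : ℝ) := by rw [Finset.sum_const, nsmul_eq_mul, mul_one]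

/-- number of primes above p -/
theorem card_Up (hN1 : P_N1) (hD : IsFund D) (h2 : Module.finrank ℚ K = 2)
    (hK : NumberField.discr K = (D : ℤ)) {p : ℕ} (hp : p.Prime) (hp2 : p ≠ 2) :
    ((U K p).card : ℝ) = 1 + (chi D p : ℝ) ∧ ((U K p).card : ℝ) ≤ 2 := by
  have h := hN1 K D hD h2 hK {p} (by
    intro q hq
    rw [Finset.mem_singleton] at hq
    rw [hq]
    exact ⟨hp, hp2⟩)
  rw [Finset.prod_singleton] at h
  have h1 : prodS {p} = p := by unfold prodS; rw [Finset.prod_singleton]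
  rw [h1, ← card_U] at h
  have h3 : ((((U K p).card : ℕ) : ℤ) : ℝ) = ((1 + chi D p : ℤ) : ℝ) := by rw [h]
  push_cast at h3
  refine ⟨h3, ?_⟩
  rw [h3]
  have h4 := jacobiSym.trichotomy (D : ℤ) p
  rw [← N1h.chi_odd hp hp2] at h4
  rcases h4 with h | h | h <;> rw [h] <;> norm_num

/-- the family -/
theorem fam_mem {y k : ℕ} (hy : 2 ≤ y) {s : Finset ℕ} (hs : s ∈ (PP y).powersetCard k) :
    ∀ p ∈ s, p.Prime ∧ p ≠ 2 := by
  intro p hp
  have hs' := (mem_powersetCard.1 hs).1 hp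
  simp only [PP, mem_filter, mem_Ioc] at hs'
  exact ⟨hs'.2, by omega⟩

theorem PP_prime {y : ℕ} (hy : 2 ≤ y) {p : ℕ} (hp : p ∈ PP y) : p.Prime ∧ p ≠ 2 := by
  simp only [PP, mem_filter, mem_Ioc] at hp
  exact ⟨hp.2, by omega⟩

theorem MD_eq (hN1 : P_N1) (hD : IsFund D) (h2 : Module.finrank ℚ K = 2)
    (hK : NumberField.discr K = (D : ℤ)) {y k : ℕ} (hy : 2 ≤ y) :
    MD D ((PP y).powersetCard k) (fun _ => 1) = ES (PP y) k (fun p => ((U K p).card : ℝ)) := by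
  unfold MD ES
  refine Finset.sum_congr rfl fun s hs => ?_
  rw [one_mul]
  refine Finset.prod_congr rfl fun p hp => ?_
  obtain ⟨h3, h4⟩ := fam_mem hy hs p hp
  exact (card_Up hN1 hD h2 hK h3 h4).1.symm

/-- Bessel's inequality for the family -/
theorem bessel_fam (hKF : P_KF) (h4 : P_N4) (h5b : P_N5b) (hN1 : P_N1) (hN3 : P_N3)
    (hN6 : P_N6) (hD : IsFund D)
    (h2 : Module.finrank ℚ K = 2) (hK : NumberField.discr K = (D : ℤ)) (e : Emb K D)
    {y k : ℕ} (hy : 2 ≤ y) (θ : ℝ) (hθ : |θ| ≤ Real.pi)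
    (χ : nonZeroDivisors (Ideal (𝓞 K)) →* Circle) (hχ : Hk e θ χ) (hne : χ ≠ 1) :
    (MD D ((PP y).powersetCard k) (fun _ => 1)) ^ 2 +
      4 / Real.pi ^ 2 * (ES (PP y) k (cc' χ)) ^ 2 ≤
    2 * √(D : ℝ) * Lone D * SD D ((PP y).powersetCard k) (fun _ => 1) := by
  have hL : 0 ≤ Lone D := (hN3 K D hD h2 hK).1
  set S : Finset (Finset ℕ) := (PP y).powersetCard k with hS
  have hfp : ∀ s ∈ S, ∀ p ∈ s, p.Prime ∧ p ≠ 2 := fun s hs => fam_mem hy hs
  let V : Finset ℕ → Finset (Ideal (𝓞 K)) := fun s => U K (prodS s)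
  let ι : Type := Σ s : {s // s ∈ S}, {A // A ∈ V s}
  have hpos : ∀ s ∈ S, prodS s ≠ 0 := fun s hs =>
    (prodS_pos fun p hp => (hfp s hs p hp).1).ne'
  have hne0 : ∀ s ∈ S, ∀ A ∈ V s, A ∈ nonZeroDivisors (Ideal (𝓞 K)) := by
    intro s hs A hA
    rw [← Ideal.absNorm_ne_zero_iff_mem_nonZeroDivisors, mem_U.mp hA]
    exact hpos s hs
  have hne' : ∀ i : ι, (i.2 : Ideal (𝓞 K)) ∈ nonZeroDivisors (Ideal (𝓞 K)) := fun i =>
    hne0 i.1 i.1.2 i.2 i.2.2
  let A : ι → nonZeroDivisors (Ideal (𝓞 K)) := fun i => ⟨i.2, hne' i⟩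
  let w : ι → ℝ := fun _ => 1
  have hw : ∀ i, 0 ≤ w i := fun _ => zero_le_one
  have hdouble : ∑ i, ∑ j, w i * w j * KAB e (A i : Ideal (𝓞 K)) (A j : Ideal (𝓞 K)) ≤
      SD D S (fun _ => 1) := by
    have h : ∑ i, ∑ j, w i * w j * KAB e (A i : Ideal (𝓞 K)) (A j : Ideal (𝓞 K)) =
        ∑ s ∈ S, ∑ X ∈ V s, ∑ t ∈ S, ∑ Y ∈ V t, (1 : ℝ) * 1 * KAB e X Y := by
      rw [← sum_sig S V (fun s X => ∑ t ∈ S, ∑ Y ∈ V t, (1 : ℝ) * 1 * KAB e X Y)]
      refine Finset.sum_congr rfl fun i _ => ?_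
      exact sum_sig S V (fun t Y => (1 : ℝ) * 1 * KAB e (i.2 : Ideal (𝓞 K)) Y)
    rw [h]
    unfold SD
    refine Finset.sum_le_sum fun s hs => ?_
    rw [Finset.sum_comm]
    refine Finset.sum_le_sum fun t ht => ?_
    have h4 := hN6 K D hD h2 hK e s t (hfp s hs) (hfp t ht) (V s) (V t)
      (fun X hX => mem_U.mp hX) (fun Y hY => mem_U.mp hY)
    simp only [one_mul]
    exact h4
  have hsumw : ∑ i, w i = MD D S (fun _ => 1) := by
    have h := sum_sig S V (fun s _ => (1 : ℝ))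
    change ∑ i : (Σ s : {s // s ∈ S}, {A // A ∈ V s}), (1 : ℝ) = MD D S (fun _ => 1)
    rw [h]
    unfold MD
    refine Finset.sum_congr rfl fun s hs => ?_
    rw [Finset.sum_const, nsmul_eq_mul, mul_comm]
    congr 1
    have h1 := hN1 K D hD h2 hK s (hfp s hs)
    have h3 : ((V s).card : ℤ) = ∏ p ∈ s, (1 + chi D p) := by
      rw [← h1, ← card_U]
    have h4 : (((V s).card : ℤ) : ℝ) = ((∏ p ∈ s, (1 + chi D p) : ℤ) : ℝ) := by rw [h3]
    push_cast at h4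
    exact h4
  have hchar : ∑ i, (w i : ℂ) * ((χ (A i) : Circle) : ℂ) = ((ES (PP y) k (cc' χ) : ℝ) : ℂ) := by
    have h := sum_sig S V (fun _ I => ex χ I)
    have e1 : ∑ i, (w i : ℂ) * ((χ (A i) : Circle) : ℂ) =
        ∑ i : (Σ s : {s // s ∈ S}, {A // A ∈ V s}), ex χ (i.2 : Ideal (𝓞 K)) := by
      refine Finset.sum_congr rfl fun i _ => ?_
      have h5 := ex_coe χ (A i)
      rw [← h5]
      simp only [w, Complex.ofReal_one, one_mul]
      rfl
    rw [e1, h]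
    unfold ES
    push_cast
    refine Finset.sum_congr rfl fun s hs => ?_
    change ∑ I ∈ U K (prodS s), ex χ I = _
    rw [sum_prodS s (fun p hp => (hfp s hs p hp).1) χ]
    refine Finset.prod_congr rfl fun p hp => ?_
    exact cc_eq e h2 θ χ hχ (hfp s hs p hp).1.ne_zero
  have hb := bessel hKF h4 h5b hN3 hD h2 hK e ι A w hw θ χ hχ hne
  rw [hchar, hsumw, Complex.norm_real, Real.norm_eq_abs, sq_abs] at hb
  have hF := F_low θ hθ
  have hc : 0 ≤ 2 * √(D : ℝ) * Lone D := by positivity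
  have h7 := hb.trans (mul_le_mul_of_nonneg_left hdouble hc)
  have h8 := mul_le_mul_of_nonneg_right hF (sq_nonneg (ES (PP y) k (cc' χ)))
  linarith

/-- the number of the tiny primes, and the character sum -/
noncomputable def Nn (K : Type) [Field K] [NumberField K] (y : ℕ) : ℝ :=
  ∑ p ∈ PP y, ((U K p).card : ℝ)

noncomputable def Lam (χ : nonZeroDivisors (Ideal (𝓞 K)) →* Circle) (y : ℕ) : ℝ :=
  ∑ p ∈ PP y, cc' χ p

theorem ES_neg (P : Finset ℕ) (k : ℕ) (c : ℕ → ℝ) :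
    ES P k (fun p => - c p) = (-1) ^ k * ES P k c := by
  unfold ES
  rw [Finset.mul_sum]
  refine Finset.sum_congr rfl fun s hs => ?_
  rw [Finset.prod_neg, (mem_powersetCard.1 hs).2]

/-- the spectral gap -/
theorem gap (hKF : P_KF) (h4 : P_N4) (h5b : P_N5b) (hN1 : P_N1) (hN3 : P_N3)
    (hN6 : P_N6) (hD : IsFund D)
    (h2 : Module.finrank ℚ K = 2) (hK : NumberField.discr K = (D : ℤ)) (e : Emb K D)
    {y k : ℕ} (hy : 2 ≤ y) (hk : 1 ≤ k) (θ : ℝ) (hθ : |θ| ≤ Real.pi)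
    (χ : nonZeroDivisors (Ideal (𝓞 K)) →* Circle) (hχ : Hk e θ χ) (hne : χ ≠ 1)
    (hnb : 2 * √(D : ℝ) * Lone D * SD D ((PP y).powersetCard k) (fun _ => 1) <
      (1 + 1 / 50) * (MD D ((PP y).powersetCard k) (fun _ => 1)) ^ 2)
    (hNk : 6 * (k : ℝ) ≤ Nn K y) :
    |Lam χ y| ≤ (1 - 1 / (2 * (k : ℝ))) * Nn K y := by
  obtain ⟨k', rfl⟩ : ∃ k', k = k' + 1 := ⟨k - 1, by omega⟩
  set b : ℕ → ℝ := fun p => ((U K p).card : ℝ) with hb
  have hbes := bessel_fam hKF h4 h5b hN1 hN3 hN6 hD h2 hK e hy θ hθ χ hχ hne (k := k' + 1)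
  have hMD := MD_eq hN1 hD h2 hK (K := K) (k := k' + 1) hy
  rw [hMD] at hbes hnb
  set M : ℝ := ES (PP y) (k' + 1) b with hM
  have hb0 : ∀ p ∈ PP y, 0 ≤ b p ∧ b p ≤ 2 := by
    intro p hp
    obtain ⟨h3, h5⟩ := PP_prime hy hp
    exact ⟨Nat.cast_nonneg _, (card_Up hN1 hD h2 hK h3 h5).2⟩
  have hM0 : 0 ≤ M := ES_nonneg _ _ _ fun p hp => (hb0 p hp).1
  have hS : 4 / Real.pi ^ 2 * (ES (PP y) (k' + 1) (cc' χ)) ^ 2 < 1 / 50 * M ^ 2 := by linarith
  have hMpos : 0 < M := by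
    rcases hM0.eq_or_lt with h | h
    · rw [← h] at hS
      have : 0 ≤ 4 / Real.pi ^ 2 * (ES (PP y) (k' + 1) (cc' χ)) ^ 2 := by positivity
      simp at hS
      linarith
    · exact h
  have hS2 : |ES (PP y) (k' + 1) (cc' χ)| ≤ M / 4 := by
    apply abs_le_of_sq_le_sq _ (by positivity)
    have hpi : Real.pi ^ 2 ≤ 10 := by
      have := Real.pi_lt_d2
      have := Real.pi_pos
      nlinarith
    have hpi0 : 0 < Real.pi ^ 2 := by positivity
    rw [div_mul_eq_mul_div, div_lt_iff₀ hpi0] at hS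
    nlinarith [sq_nonneg M]
  -- positivity of the lower symmetric sum
  set M' : ℝ := ES (PP y) k' b with hM'
  have hM'0 : 0 ≤ M' := ES_nonneg _ _ _ fun p hp => (hb0 p hp).1
  have hlow := ES_lower (PP y) k' b hb0
  rw [← hM', ← hM] at hlow
  have hNdef : ∑ p ∈ PP y, b p = Nn K y := rfl
  rw [hNdef] at hlow
  have hkr : (0 : ℝ) ≤ k' := Nat.cast_nonneg _
  push_cast at hNk ⊢
  have hN0 : 0 < Nn K y := by nlinarith
  have hM'pos : 0 < M' := by
    have h3 := ES_sub_le (PP y) k' b (fun _ => 0) (by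
      intro p hp
      rw [abs_zero]
      exact (hb0 p hp).1)
    have h5 : ES (PP y) (k' + 1) (fun _ => (0 : ℝ)) = 0 := by
      unfold ES
      refine Finset.sum_eq_zero fun s hs => ?_
      rw [Finset.prod_const, (mem_powersetCard.1 hs).2]
      exact zero_pow (Nat.succ_ne_zero k')
    rw [h5, ← hM, ← hM'] at h3
    simp only [sub_zero] at h3
    rw [hNdef] at h3
    rcases hM'0.eq_or_lt with h | h
    · rw [← h] at h3
      simp at h3
      linarith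
    · exact h
  -- both signs
  have key : ∀ c : ℕ → ℝ, (∀ p ∈ PP y, |c p| ≤ b p) → ES (PP y) (k' + 1) c ≤ M / 4 →
      1 / (2 * ((k' : ℝ) + 1)) * Nn K y ≤ ∑ p ∈ PP y, (b p - c p) := by
    intro c hc hle
    have h3 := ES_sub_le (PP y) k' b c hc
    rw [← hM, ← hM'] at h3
    have h5 : 3 / 4 * M ≤ (∑ p ∈ PP y, (b p - c p)) * M' := by linarith
    have h6 : 3 / 4 * ((Nn K y - 2 * k') * M') ≤
        (k' + 1) * ((∑ p ∈ PP y, (b p - c p)) * M') := by
      calc 3 / 4 * ((Nn K y - 2 * k') * M') ≤ 3 / 4 * ((k' + 1) * M) := by linarith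
        _ = (k' + 1) * (3 / 4 * M) := by ring
        _ ≤ _ := mul_le_mul_of_nonneg_left h5 (by positivity)
    have h7 : 3 / 4 * (Nn K y - 2 * k') ≤ (k' + 1) * (∑ p ∈ PP y, (b p - c p)) := by
      have h8 : (3 / 4 * (Nn K y - 2 * k')) * M' ≤
          ((k' + 1) * (∑ p ∈ PP y, (b p - c p))) * M' := by linarith
      exact le_of_mul_le_mul_right h8 hM'pos
    rw [div_mul_eq_mul_div, one_mul, div_le_iff₀ (by positivity)]
    nlinarith
  have hc1 : ∀ p ∈ PP y, |cc' χ p| ≤ b p := fun p _ => cc_le χ p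
  have k1 := key (cc' χ) hc1 ((le_abs_self _).trans hS2)
  have k2 := key (fun p => - cc' χ p) (fun p hp => by rw [abs_neg]; exact hc1 p hp) (by
    rw [ES_neg]
    refine (le_abs_self _).trans ?_
    rw [abs_mul, abs_pow, abs_neg, abs_one, one_pow, one_mul]
    exact hS2)
  rw [Finset.sum_sub_distrib, hNdef] at k1 k2
  rw [Finset.sum_neg_distrib] at k2
  change _ ≤ Nn K y - Lam χ y at k1
  change _ ≤ Nn K y - -Lam χ y at k2
  rw [abs_le]
  constructor <;> nlinarith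

end Pool.Agent.W24.SG
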