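import Pool.Agent.W24.SG.Cnt

/-!
# Hecke characters, and the characters of the unique factorisation fields
-/

set_option autoImplicit false

namespace Pool.Agent.W24.SG

open Finset Filter NumberField Pool.Agent.H38R2.CG Pool.Agent.H38R2.CG2 Pool.Agent.H951R5.AR
open Pool.Agent.H38R2.CG.NFh
open scoped Classical

variable {K : Type} [Field K] [NumberField K] {D : ℕ}

/-- the definition by the values at the principal ideals gives the definition by `XAB` -/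
theorem hk_of (e : Emb K D) (θ : ℝ) (χ : nonZeroDivisors (Ideal (𝓞 K)) →* Circle)
    (h : ∀ (x : 𝓞 K) (I : nonZeroDivisors (Ideal (𝓞 K))), 0 < e.σ (x : K) → 0 < e.τ (x : K) →
      (I : Ideal (𝓞 K)) = Ideal.span {x} →
      ((χ I : Circle) : ℂ) = E θ (ar e (x : K))) : Hk e θ χ := by
  intro A B x hx
  have hx0 : x ≠ 0 := N5ah.ne_zero_of_pos e hx.1
  obtain ⟨a, b, hb, hab⟩ := IsFractionRing.div_surjective (A := 𝓞 K) x
  have hb0 : b ≠ 0 := nonZeroDivisors.ne_zero hb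
  have hbK : ((b : 𝓞 K) : K) ≠ 0 := by
    intro h; exact hb0 (by exact_mod_cast h)
  have hab' : x * (b : K) = (a : K) := by
    rw [← hab]
    exact div_mul_cancel₀ _ hbK
  -- a' = x b^2, b' = b^2
  have hb'K : (((b * b : 𝓞 K)) : K) = (b : K) * (b : K) := rfl
  have ha'K : (((a * b : 𝓞 K)) : K) = x * ((b : K) * (b : K)) := by
    show (a : K) * (b : K) = _
    rw [← hab']
    ring
  have hsb : e.σ (b : K) ≠ 0 := (map_ne_zero e.σ).2 hbK
  have htb : e.τ (b : K) ≠ 0 := (map_ne_zero e.τ).2 hbK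
  have p1 : 0 < e.σ (((b * b : 𝓞 K)) : K) := by
    rw [hb'K, map_mul]
    exact mul_self_pos.2 hsb
  have p2 : 0 < e.τ (((b * b : 𝓞 K)) : K) := by
    rw [hb'K, map_mul]
    exact mul_self_pos.2 htb
  have p3 : 0 < e.σ (((a * b : 𝓞 K)) : K) := by
    rw [ha'K, map_mul, ← hb'K]
    exact mul_pos hx.1 p1
  have p4 : 0 < e.τ (((a * b : 𝓞 K)) : K) := by
    rw [ha'K, map_mul, ← hb'K]
    exact mul_pos hx.2.1 p2
  have hbb : (b * b : 𝓞 K) ≠ 0 := mul_ne_zero hb0 hb0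
  have haa : (a * b : 𝓞 K) ≠ 0 := by
    intro h0
    rw [h0] at p3
    simp at p3
  have m1 : Ideal.span {(a * b : 𝓞 K)} ∈ nonZeroDivisors (Ideal (𝓞 K)) :=
    mem_nonZeroDivisors_of_ne_zero (by rw [Ne, Ideal.zero_eq_bot, Ideal.span_singleton_eq_bot]; exact haa)
  have m2 : Ideal.span {(b * b : 𝓞 K)} ∈ nonZeroDivisors (Ideal (𝓞 K)) :=
    mem_nonZeroDivisors_of_ne_zero (by rw [Ne, Ideal.zero_eq_bot, Ideal.span_singleton_eq_bot]; exact hbb)
  have hIJ : (⟨_, m1⟩ * A : nonZeroDivisors (Ideal (𝓞 K))) = ⟨_, m2⟩ * B := by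
    apply Subtype.ext
    show Ideal.span {(a * b : 𝓞 K)} * (A : Ideal (𝓞 K)) =
      Ideal.span {(b * b : 𝓞 K)} * (B : Ideal (𝓞 K))
    apply FractionalIdeal.coeIdeal_injective (K := K)
    beta_reduce
    rw [FractionalIdeal.coeIdeal_mul, FractionalIdeal.coeIdeal_mul]
    have h5 : ((Ideal.span {(a * b : 𝓞 K)} : Ideal (𝓞 K)) :
          FractionalIdeal (nonZeroDivisors (𝓞 K)) K) =
        FractionalIdeal.spanSingleton (nonZeroDivisors (𝓞 K)) (((a * b : 𝓞 K)) : K) :=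
      FractionalIdeal.coeIdeal_span_singleton _
    have h6 : ((Ideal.span {(b * b : 𝓞 K)} : Ideal (𝓞 K)) :
          FractionalIdeal (nonZeroDivisors (𝓞 K)) K) =
        FractionalIdeal.spanSingleton (nonZeroDivisors (𝓞 K)) (((b * b : 𝓞 K)) : K) :=
      FractionalIdeal.coeIdeal_span_singleton _
    rw [h5, h6, ha'K, hb'K, mul_comm x, ← FractionalIdeal.spanSingleton_mul_spanSingleton,
      mul_assoc, hx.2.2]
  have hval := congrArg (fun I => ((χ I : Circle) : ℂ)) hIJ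
  simp only [map_mul, Circle.coe_mul] at hval
  rw [h (a * b) ⟨_, m1⟩ p3 p4 rfl, h (b * b) ⟨_, m2⟩ p1 p2 rfl] at hval
  have har : ar e (((a * b : 𝓞 K)) : K) = ar e x + ar e (((b * b : 𝓞 K)) : K) := by
    rw [ha'K, ← hb'K]
    exact ar_mul e hx.1 hx.2.1 p1 p2
  rw [har, E_add] at hval
  have hne : E θ (ar e (((b * b : 𝓞 K)) : K)) ≠ 0 := by
    intro h0
    have := norm_E θ (ar e (((b * b : 𝓞 K)) : K))
    rw [h0, norm_zero] at this
    exact zero_ne_one this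
  have h7 : E θ (ar e (((b * b : 𝓞 K)) : K)) * ((χ B : Circle) : ℂ) =
      E θ (ar e (((b * b : 𝓞 K)) : K)) * (E θ (ar e x) * ((χ A : Circle) : ℂ)) := by
    rw [← hval]
    ring
  exact mul_left_cancel₀ hne h7

/-- a totally positive integer of small positive argument -/
theorem exists_small (hD : IsFund D) (e : Emb K D) :
    ∃ x : 𝓞 K, 0 < e.σ (x : K) ∧ 0 < e.τ (x : K) ∧ 0 < ar e (x : K) ∧ ar e (x : K) < 2 := by
  have hDr : (0 : ℝ) < D := by exact_mod_cast (by have := hD.1; omega : 0 < D)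
  have hsq : 0 < √(D : ℝ) := Real.sqrt_pos.mpr hDr
  set m : ℕ := ⌈2 * √(D : ℝ)⌉₊ + 1 with hm
  have hm2 : 2 * √(D : ℝ) < (m : ℝ) := by
    rw [hm]
    push_cast
    have := Nat.le_ceil (2 * √(D : ℝ))
    linarith
  obtain ⟨x, hx1, hx2⟩ := e.int2 (2 * m) 2 (by
    have : (2 * (m : ℤ)) - D * 2 = 2 * (m - D) := by ring
    rw [this]
    exact dvd_mul_right _ _)
  push_cast at hx1 hx2
  have s1 : e.σ (x : K) = (m : ℝ) + √(D : ℝ) := by rw [hx1]; ring
  have s2 : e.τ (x : K) = (m : ℝ) - √(D : ℝ) := by rw [hx2]; ring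
  have p2 : 0 < (m : ℝ) - √(D : ℝ) := by linarith
  refine ⟨x, by rw [s1]; positivity, by rw [s2]; exact p2, ?_, ?_⟩
  · unfold ar
    rw [s1, s2]
    apply Real.log_pos
    rw [one_lt_div p2]
    linarith
  · unfold ar
    rw [s1, s2]
    have h1 : ((m : ℝ) + √(D : ℝ)) / ((m : ℝ) - √(D : ℝ)) =
        1 + 2 * √(D : ℝ) / ((m : ℝ) - √(D : ℝ)) := by
      field_simp
      ring
    rw [h1]
    have h2 : 0 < 2 * √(D : ℝ) / ((m : ℝ) - √(D : ℝ)) := by positivity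
    have h3 := Real.log_le_sub_one_of_pos (show (0 : ℝ) < 1 + 2 * √(D : ℝ) / ((m : ℝ) - √(D : ℝ)) by
      positivity)
    have h4 : 2 * √(D : ℝ) / ((m : ℝ) - √(D : ℝ)) < 2 := by
      rw [div_lt_iff₀ p2]
      linarith
    linarith

/-- exp(iθu) is not 1 for 0 < |θ| ≤ π, 0 < |u| < 2 -/
theorem E_ne_one (θ u : ℝ) (hθ : θ ≠ 0) (hθ' : |θ| ≤ Real.pi) (hu : u ≠ 0) (hu2 : |u| < 2) :
    E θ u ≠ 1 := by
  intro h
  unfold E at h
  rw [Complex.exp_eq_one_iff] at h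
  obtain ⟨n, hn⟩ := h
  have h1 : ((θ * u : ℝ) : ℂ) = ((n * (2 * Real.pi) : ℝ) : ℂ) := by
    have h2 : (((θ * u : ℝ) : ℂ) - ((n * (2 * Real.pi) : ℝ) : ℂ)) * Complex.I = 0 := by
      rw [sub_mul, hn]
      push_cast
      ring
    rcases mul_eq_zero.1 h2 with h3 | h3
    · exact sub_eq_zero.1 h3
    · exact absurd h3 Complex.I_ne_zero
  have h4 : θ * u = n * (2 * Real.pi) := by exact_mod_cast h1
  have hpi := Real.pi_pos
  have h5 : |θ * u| < 2 * Real.pi := by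
    rw [abs_mul]
    have : 0 < |u| := abs_pos.2 hu
    nlinarith [abs_nonneg θ]
  have hn0 : n ≠ 0 := by
    rintro rfl
    rw [Int.cast_zero, zero_mul] at h4
    exact (mul_ne_zero hθ hu) h4
  have h6 : (1 : ℝ) ≤ |(n : ℝ)| := by
    exact_mod_cast Int.one_le_abs hn0
  rw [h4, abs_mul, abs_of_pos (by positivity : 0 < 2 * Real.pi)] at h5
  nlinarith

end Pool.Agent.W24.SG
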