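import Pool.Agent.H38R2.CG.N5a

/-!
# Exponential sums over lattice points of hyperbolic sectors
-/

set_option autoImplicit false

namespace Pool.Agent.W24.SG

open Finset Filter NumberField Pool.Agent.H38R2.CG
open scoped Classical

/-- the exponential -/
noncomputable def E (θ u : ℝ) : ℂ := Complex.exp (((θ * u : ℝ) : ℂ) * Complex.I)

theorem E_add (θ u v : ℝ) : E θ (u + v) = E θ u * E θ v := by
  unfold E
  rw [← Complex.exp_add]
  congr 1
  push_cast
  ring

theorem E_zero (θ : ℝ) : E θ 0 = 1 := by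
  unfold E
  simp

theorem norm_E (θ u : ℝ) : ‖E θ u‖ = 1 := Complex.norm_exp_ofReal_mul_I _

theorem E_lip (θ u v : ℝ) : ‖E θ u - E θ v‖ ≤ |θ| * |u - v| := by
  have h1 : E θ u = E θ (u - v) * E θ v := by rw [← E_add, sub_add_cancel]
  have h2 : E θ u - E θ v = (E θ (u - v) - 1) * E θ v := by rw [h1]; ring
  rw [h2, norm_mul, norm_E, mul_one]
  have h3 := Real.norm_exp_I_mul_ofReal_sub_one_le (x := θ * (u - v))
  unfold E
  rw [mul_comm (((θ * (u - v) : ℝ)) : ℂ) Complex.I]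
  refine h3.trans ?_
  rw [Real.norm_eq_abs, abs_mul]

theorem E_cont (θ : ℝ) : Continuous (E θ) := by
  unfold E
  fun_prop

theorem E_int (θ a b : ℝ) (hθ : θ ≠ 0) :
    ∫ u in a..b, E θ u = (E θ b - E θ a) / (θ * Complex.I) := by
  have hc : ((θ : ℂ) * Complex.I) ≠ 0 :=
    mul_ne_zero (by exact_mod_cast hθ) Complex.I_ne_zero
  have h := integral_exp_mul_complex (a := a) (b := b) hc
  have e1 : (fun u : ℝ => E θ u) = fun u : ℝ => Complex.exp ((θ : ℂ) * Complex.I * u) := by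
    funext u
    unfold E
    congr 1
    push_cast
    ring
  rw [e1, h]
  unfold E
  congr 3
  all_goals
    push_cast
    ring

/-- a sum over a finite set, compared with a multiple of its size -/
theorem fs_near {K : Type} (S : Set K) (hS : S.Finite) (g : K → ℂ) (c : ℂ) (δ : ℝ)
    (h : ∀ x ∈ S, ‖g x - c‖ ≤ δ) :
    ‖(∑ᶠ x ∈ S, g x) - c * (S.ncard : ℂ)‖ ≤ δ * S.ncard := by
  rw [finsum_mem_eq_finite_toFinset_sum _ hS, Set.ncard_eq_toFinset_card _ hS]
  have e1 : (∑ x ∈ hS.toFinset, g x) - c * ((hS.toFinset.card : ℕ) : ℂ) =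
      ∑ x ∈ hS.toFinset, (g x - c) := by
    rw [Finset.sum_sub_distrib, Finset.sum_const, nsmul_eq_mul]
    ring
  rw [e1]
  refine (norm_sum_le _ _).trans ?_
  calc ∑ x ∈ hS.toFinset, ‖g x - c‖ ≤ ∑ x ∈ hS.toFinset, δ :=
        Finset.sum_le_sum fun x hx => h x (hS.mem_toFinset.1 hx)
    _ = δ * hS.toFinset.card := by
        rw [Finset.sum_const, nsmul_eq_mul]
        ring

variable {K : Type} [Field K] [NumberField K] {D : ℕ}

/-- the argument of an element -/
noncomputable def ar (e : Emb K D) (x : K) : ℝ := Real.log (e.σ x / e.τ x)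

theorem lat_empty (e : Emb K D) (A : Ideal (𝓞 K)) (α β Y : ℝ) (h : β ≤ α) :
    latSet e A α β Y = ∅ := by
  rw [Set.eq_empty_iff_forall_notMem]
  rintro x ⟨_, _, h3, h4, _, _⟩
  linarith

theorem lat_union (e : Emb K D) (A : Ideal (𝓞 K)) (α γ β Y : ℝ) (h1 : α ≤ γ) (h2 : γ ≤ β) :
    latSet e A α β Y = latSet e A α γ Y ∪ latSet e A γ β Y ∧
    Disjoint (latSet e A α γ Y) (latSet e A γ β Y) := by
  refine ⟨?_, ?_⟩
  · ext x
    constructor
    · rintro ⟨g1, g2, g3, g4, g5, g6⟩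
      rcases lt_or_ge (Real.log (e.σ x / e.τ x)) γ with h | h
      · exact Or.inl ⟨g1, g2, g3, h, g5, g6⟩
      · exact Or.inr ⟨g1, g2, h, g4, g5, g6⟩
    · rintro (⟨g1, g2, g3, g4, g5, g6⟩ | ⟨g1, g2, g3, g4, g5, g6⟩)
      · exact ⟨g1, g2, g3, g4.trans_le h2, g5, g6⟩
      · exact ⟨g1, g2, h1.trans g3, g4, g5, g6⟩
  · rw [Set.disjoint_left]
    rintro x ⟨_, _, _, g4, _, _⟩ ⟨_, _, g3, _, _, _⟩
    linarith

/-- N4 for possibly empty intervals -/
theorem n4' (h4 : P_N4) (hD : IsFund D) (h2 : Module.finrank ℚ K = 2)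
    (hK : NumberField.discr K = (D : ℤ)) (e : Emb K D) (A : Ideal (𝓞 K)) (hA : A ≠ ⊥)
    (α β : ℝ) (hαβ : α ≤ β) :
    (∀ Y : ℝ, (latSet e A α β Y).Finite) ∧
    Tendsto (fun N : ℕ => ((latSet e A α β N).ncard : ℝ) / N) atTop
      (nhds ((β - α) / (2 * √(D : ℝ)))) := by
  rcases hαβ.lt_or_eq with h | h
  · exact h4 K D hD h2 hK e A hA α β h
  · subst h
    refine ⟨fun Y => ?_, ?_⟩
    · rw [lat_empty e A α α Y le_rfl]
      exact Set.finite_empty
    · have : (fun N : ℕ => ((latSet e A α α N).ncard : ℝ) / N) = fun _ => 0 := by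
        funext N
        rw [lat_empty e A α α N le_rfl, Set.ncard_empty, Nat.cast_zero, zero_div]
      rw [this, sub_self, zero_div]
      exact tendsto_const_nhds

/-- splitting into small intervals -/
theorem lat_split (h4 : P_N4) (hD : IsFund D) (h2 : Module.finrank ℚ K = 2)
    (hK : NumberField.discr K = (D : ℤ)) (e : Emb K D) (A : Ideal (𝓞 K)) (hA : A ≠ ⊥)
    (α δ Y : ℝ) (hδ : 0 ≤ δ) (g : K → ℂ) (m : ℕ) :
    ∑ᶠ x ∈ latSet e A α (α + m * δ) Y, g x =
      ∑ j ∈ Finset.range m, ∑ᶠ x ∈ latSet e A (α + j * δ) (α + (j + 1) * δ) Y, g x := by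
  induction m with
  | zero =>
    rw [lat_empty e A _ _ Y (by simp)]
    simp
  | succ m ih =>
    rw [Finset.sum_range_succ, ← ih]
    have hm : 0 ≤ (m : ℝ) * δ := by positivity
    obtain ⟨hu, hd⟩ := lat_union e A α (α + m * δ) (α + ((m + 1 : ℕ) : ℝ) * δ) Y (by linarith)
      (by push_cast; linarith)
    rw [hu, finsum_mem_union hd]
    · push_cast
      rfl
    · exact (n4' h4 hD h2 hK e A hA _ _ (by linarith)).1 Y
    · exact (n4' h4 hD h2 hK e A hA _ _ (by push_cast; linarith)).1 Y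

/-- comparison of the integral with a Riemann sum -/
theorem riem (θ α δ : ℝ) (hδ : 0 ≤ δ) (m : ℕ) :
    ‖(∫ u in α..(α + m * δ), E θ u) - ∑ j ∈ Finset.range m, E θ (α + j * δ) * (δ : ℂ)‖ ≤
      |θ| * δ * (m * δ) := by
  have hint : ∀ a b : ℝ, IntervalIntegrable (E θ) MeasureTheory.volume a b := fun a b =>
    (E_cont θ).intervalIntegrable a b
  induction m with
  | zero => simp
  | succ m ih =>
    rw [Finset.sum_range_succ]
    have e1 : (∫ u in α..(α + ((m + 1 : ℕ) : ℝ) * δ), E θ u) =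
        (∫ u in α..(α + m * δ), E θ u) +
        ∫ u in (α + m * δ)..(α + ((m + 1 : ℕ) : ℝ) * δ), E θ u :=
      (intervalIntegral.integral_add_adjacent_intervals (hint _ _) (hint _ _)).symm
    have e2 : E θ (α + m * δ) * (δ : ℂ) =
        ∫ _ in (α + m * δ)..(α + ((m + 1 : ℕ) : ℝ) * δ), E θ (α + m * δ) := by
      rw [intervalIntegral.integral_const]
      have : (α + ((m + 1 : ℕ) : ℝ) * δ) - (α + m * δ) = δ := by push_cast; ring
      rw [this, mul_comm]
      rfl
    have h3 : ‖(∫ u in (α + m * δ)..(α + ((m + 1 : ℕ) : ℝ) * δ), E θ u) -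
        E θ (α + m * δ) * (δ : ℂ)‖ ≤ |θ| * δ * δ := by
      rw [e2, ← intervalIntegral.integral_sub (hint _ _) (by
        exact _root_.intervalIntegrable_const)]
      have h5 : ∀ u ∈ Set.uIoc (α + m * δ) (α + ((m + 1 : ℕ) : ℝ) * δ),
          ‖E θ u - E θ (α + m * δ)‖ ≤ |θ| * δ := by
        intro u hu
        refine (E_lip θ u _).trans ?_
        have hle : α + m * δ ≤ α + ((m + 1 : ℕ) : ℝ) * δ := by push_cast; linarith
        rw [Set.uIoc_of_le hle] at hu
        have h6 := hu.1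
        have h7 := hu.2
        push_cast at h7
        apply mul_le_mul_of_nonneg_left _ (abs_nonneg _)
        rw [abs_of_nonneg (by linarith)]
        linarith
      have h8 := intervalIntegral.norm_integral_le_of_norm_le_const h5
      have h9 : |(α + ((m + 1 : ℕ) : ℝ) * δ) - (α + m * δ)| = δ := by
        have : (α + ((m + 1 : ℕ) : ℝ) * δ) - (α + m * δ) = δ := by push_cast; ring
        rw [this, abs_of_nonneg hδ]
      rw [h9] at h8
      exact h8
    rw [e1]
    have e4 : (∫ u in α..(α + m * δ), E θ u) +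
        (∫ u in (α + m * δ)..(α + ((m + 1 : ℕ) : ℝ) * δ), E θ u) -
        (∑ j ∈ Finset.range m, E θ (α + j * δ) * (δ : ℂ) + E θ (α + m * δ) * (δ : ℂ)) =
        ((∫ u in α..(α + m * δ), E θ u) - ∑ j ∈ Finset.range m, E θ (α + j * δ) * (δ : ℂ)) +
        ((∫ u in (α + m * δ)..(α + ((m + 1 : ℕ) : ℝ) * δ), E θ u) -
          E θ (α + m * δ) * (δ : ℂ)) := by ring
    rw [e4]
    refine (norm_add_le _ _).trans ?_
    push_cast at *
    nlinarith

/-- the exponential sum over the lattice points -/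
theorem lat_lim (h4 : P_N4) (hD : IsFund D) (h2 : Module.finrank ℚ K = 2)
    (hK : NumberField.discr K = (D : ℤ)) (e : Emb K D) (A : Ideal (𝓞 K)) (hA : A ≠ ⊥)
    (α β : ℝ) (hαβ : α ≤ β) (θ : ℝ) :
    Tendsto (fun N : ℕ => (∑ᶠ x ∈ latSet e A α β N, E θ (ar e x)) / (N : ℂ)) atTop
      (nhds ((∫ u in α..β, E θ u) / (2 * √(D : ℝ) : ℝ))) := by
  have hDr : (0 : ℝ) < D := by exact_mod_cast (by have := hD.1; omega : 0 < D)
  have hsq : 0 < √(D : ℝ) := Real.sqrt_pos.mpr hDr
  rw [Metric.tendsto_atTop]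
  intro ε hε
  set w : ℝ := β - α with hw
  have hw0 : 0 ≤ w := by linarith
  set c : ℝ := w / (2 * √(D : ℝ)) with hc
  have hc0 : 0 ≤ c := by positivity
  -- choice of m
  obtain ⟨m, hm⟩ := exists_nat_gt (4 * |θ| * w * (2 * c + 1) / ε + 1)
  have hm1 : (1 : ℝ) < m := by
    have : 0 ≤ 4 * |θ| * w * (2 * c + 1) / ε := by positivity
    linarith
  have hm0 : (0 : ℝ) < m := by linarith
  set δ : ℝ := w / m with hδ
  have hδ0 : 0 ≤ δ := by positivity
  have hmδ : (m : ℝ) * δ = w := by rw [hδ]; field_simp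
  have hβ : α + m * δ = β := by rw [hmδ]; ring
  have hsmall : |θ| * δ * (2 * c + 1) < ε / 4 := by
    have h5 : 4 * |θ| * w * (2 * c + 1) / ε < m := by linarith
    rw [div_lt_iff₀ hε] at h5
    have h6 : |θ| * δ * (2 * c + 1) = |θ| * w * (2 * c + 1) / m := by rw [hδ]; ring
    rw [h6, div_lt_iff₀ hm0]
    linarith
  -- the approximations
  let aN : ℕ → ℂ := fun N => ∑ j ∈ Finset.range m, E θ (α + j * δ) *
    ((((latSet e A (α + j * δ) (α + (j + 1) * δ) N).ncard : ℝ) / N : ℝ) : ℂ)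
  let aL : ℂ := ∑ j ∈ Finset.range m, E θ (α + j * δ) * (((δ / (2 * √(D : ℝ)) : ℝ)) : ℂ)
  have haN : Tendsto aN atTop (nhds aL) := by
    refine tendsto_finsetSum _ fun j _ => ?_
    refine Tendsto.const_mul _ ?_
    have h5 := (n4' h4 hD h2 hK e A hA (α + j * δ) (α + (j + 1) * δ) (by linarith)).2
    have h6 : (α + (j + 1) * δ) - (α + j * δ) = δ := by ring
    rw [h6] at h5
    exact (Complex.continuous_ofReal.tendsto _).comp h5
  have h7 := (n4' h4 hD h2 hK e A hA α β hαβ).2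
  obtain ⟨N1, hN1⟩ := Metric.tendsto_atTop.1 haN (ε / 4) (by positivity)
  obtain ⟨N2, hN2⟩ := Metric.tendsto_atTop.1 h7 1 one_pos
  refine ⟨max N1 (max N2 1), fun N hN => ?_⟩
  have hNa : N1 ≤ N := (le_max_left _ _).trans hN
  have hNb : N2 ≤ N := (le_max_left _ _).trans ((le_max_right _ _).trans hN)
  have hNc : 1 ≤ N := (le_max_right _ _).trans ((le_max_right _ _).trans hN)
  have hN0 : (0 : ℝ) < N := by exact_mod_cast hNc
  have hNC : (N : ℂ) ≠ 0 := by exact_mod_cast hN0.ne'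
  have g1 := hN1 N hNa
  have g2 := hN2 N hNb
  rw [Real.dist_eq] at g2
  have g3 : ((latSet e A α β N).ncard : ℝ) / N ≤ c + 1 := by
    have := (abs_lt.1 g2).2
    linarith
  -- first difference
  have d1 : ‖(∑ᶠ x ∈ latSet e A α β N, E θ (ar e x)) / (N : ℂ) - aN N‖ ≤
      |θ| * δ * (c + 1) := by
    have hcard : ∑ j ∈ Finset.range m,
        ((latSet e A (α + j * δ) (α + (j + 1) * δ) N).ncard : ℝ) =
        ((latSet e A α β N).ncard : ℝ) := by
      have h8 := lat_split h4 hD h2 hK e A hA α δ N hδ0 (fun _ => (1 : ℂ)) m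
      rw [hβ] at h8
      have h9 : ∀ a b : ℝ, a ≤ b → ∑ᶠ x ∈ latSet e A a b N, (1 : ℂ) =
          ((latSet e A a b N).ncard : ℂ) := by
        intro a b hab
        have hf := (n4' h4 hD h2 hK e A hA a b hab).1 N
        rw [finsum_mem_eq_finite_toFinset_sum _ hf, Set.ncard_eq_toFinset_card _ hf,
          Finset.sum_const, nsmul_eq_mul, mul_one]
      rw [h9 α β hαβ] at h8
      have h10 : ∀ j ∈ Finset.range m, ∑ᶠ x ∈ latSet e A (α + j * δ) (α + (j + 1) * δ) N,
          (1 : ℂ) = ((latSet e A (α + j * δ) (α + (j + 1) * δ) N).ncard : ℂ) := fun j _ =>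
        h9 _ _ (by linarith)
      rw [Finset.sum_congr rfl h10] at h8
      exact_mod_cast h8.symm
    have hspl := lat_split h4 hD h2 hK e A hA α δ N hδ0 (fun x => E θ (ar e x)) m
    rw [hβ] at hspl
    have e5 : (∑ᶠ x ∈ latSet e A α β N, E θ (ar e x)) / (N : ℂ) - aN N =
        (∑ j ∈ Finset.range m, ((∑ᶠ x ∈ latSet e A (α + j * δ) (α + (j + 1) * δ) N,
          E θ (ar e x)) - E θ (α + j * δ) *
          (((latSet e A (α + j * δ) (α + (j + 1) * δ) N).ncard : ℕ) : ℂ))) / (N : ℂ) := by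
      rw [hspl, Finset.sum_sub_distrib, sub_div]
      congr 1
      simp only [aN]
      rw [Finset.sum_div]
      refine Finset.sum_congr rfl fun j _ => ?_
      push_cast
      ring
    rw [e5, norm_div, Complex.norm_natCast, div_le_iff₀ hN0]
    refine (norm_sum_le _ _).trans ?_
    calc ∑ j ∈ Finset.range m, ‖(∑ᶠ x ∈ latSet e A (α + j * δ) (α + (j + 1) * δ) N,
          E θ (ar e x)) - E θ (α + j * δ) *
          (((latSet e A (α + j * δ) (α + (j + 1) * δ) N).ncard : ℕ) : ℂ)‖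
        ≤ ∑ j ∈ Finset.range m, (|θ| * δ) *
          ((latSet e A (α + j * δ) (α + (j + 1) * δ) N).ncard : ℝ) := by
          refine Finset.sum_le_sum fun j _ => ?_
          refine fs_near _ ((n4' h4 hD h2 hK e A hA _ _ (by linarith)).1 _) _ _ _ ?_
          rintro x ⟨_, _, k3, k4, _, _⟩
          refine (E_lip θ _ _).trans ?_
          apply mul_le_mul_of_nonneg_left _ (abs_nonneg _)
          unfold ar
          rw [abs_of_nonneg (by linarith)]
          linarith
      _ = |θ| * δ * ((latSet e A α β N).ncard : ℝ) := by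
          rw [← Finset.mul_sum, hcard]
      _ ≤ |θ| * δ * (c + 1) * N := by
          rw [div_le_iff₀ hN0] at g3
          rw [mul_assoc (|θ| * δ)]
          exact mul_le_mul_of_nonneg_left g3 (by positivity)
  -- second difference
  have d2 : ‖aL - (∫ u in α..β, E θ u) / ((2 * √(D : ℝ) : ℝ) : ℂ)‖ ≤ |θ| * δ * c := by
    have h8 := riem θ α δ hδ0 m
    rw [hβ, hmδ] at h8
    have e6 : aL - (∫ u in α..β, E θ u) / ((2 * √(D : ℝ) : ℝ) : ℂ) =
        -(((∫ u in α..β, E θ u) - ∑ j ∈ Finset.range m, E θ (α + j * δ) * (δ : ℂ)) /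
          ((2 * √(D : ℝ) : ℝ) : ℂ)) := by
      simp only [aL]
      rw [sub_div, Finset.sum_div, neg_sub]
      congr 1
      refine Finset.sum_congr rfl fun j _ => ?_
      push_cast
      ring
    rw [e6, norm_neg, norm_div, Complex.norm_real, Real.norm_eq_abs,
      abs_of_pos (by positivity : (0 : ℝ) < 2 * √(D : ℝ)), div_le_iff₀ (by positivity)]
    refine h8.trans (le_of_eq ?_)
    rw [hc]
    field_simp
  rw [dist_eq_norm] at g1 ⊢
  have e7 : (∑ᶠ x ∈ latSet e A α β N, E θ (ar e x)) / (N : ℂ) -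
      (∫ u in α..β, E θ u) / ((2 * √(D : ℝ) : ℝ) : ℂ) =
      ((∑ᶠ x ∈ latSet e A α β N, E θ (ar e x)) / (N : ℂ) - aN N) + (aN N - aL) +
      (aL - (∫ u in α..β, E θ u) / ((2 * √(D : ℝ) : ℝ) : ℂ)) := by ring
  rw [e7]
  refine lt_of_le_of_lt (norm_add₃_le) ?_
  have h10 : |θ| * δ * (c + 1) + |θ| * δ * c = |θ| * δ * (2 * c + 1) := by ring
  linarith

end Pool.Agent.W24.SG
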