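import Pool.Agent.W24.SG.Lat
import Pool.Agent.H951R5.AR.Cov

/-!
# Orthogonality of a Hecke character of a real quadratic field to the trivial one
-/

set_option autoImplicit false

namespace Pool.Agent.W24.SG

open Finset Filter NumberField Pool.Agent.H38R2.CG Pool.Agent.H951R5.AR
open scoped Classical

variable {K : Type} [Field K] [NumberField K] {D : ℕ}

/-- unramified Hecke character of frequency θ, trivial signs on the totally positive elements -/
def Hk (e : Emb K D) (θ : ℝ) (χ : nonZeroDivisors (Ideal (𝓞 K)) →* Circle) : Prop :=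
  ∀ (A B : nonZeroDivisors (Ideal (𝓞 K))) (x : K), x ∈ XAB e (A : Ideal (𝓞 K)) (B : Ideal (𝓞 K)) →
    ((χ B : Circle) : ℂ) = E θ (ar e x) * ((χ A : Circle) : ℂ)

theorem one_mem_XAB (e : Emb K D) (A : Ideal (𝓞 K)) : (1 : K) ∈ XAB e A A := by
  refine ⟨by simp, by simp, ?_⟩
  rw [FractionalIdeal.spanSingleton_one, one_mul]

theorem mul_mem_XAB (e : Emb K D) {A B C : Ideal (𝓞 K)} {x y : K} (hx : x ∈ XAB e A B)
    (hy : y ∈ XAB e B C) : y * x ∈ XAB e A C := by
  refine ⟨?_, ?_, ?_⟩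
  · rw [map_mul]; exact mul_pos hy.1 hx.1
  · rw [map_mul]; exact mul_pos hy.2.1 hx.2.1
  · rw [← FractionalIdeal.spanSingleton_mul_spanSingleton, mul_assoc, hx.2.2, hy.2.2]

theorem ar_mul (e : Emb K D) {x y : K} (hx : 0 < e.σ x) (hx' : 0 < e.τ x) (hy : 0 < e.σ y)
    (hy' : 0 < e.τ y) : ar e (x * y) = ar e x + ar e y := by
  unfold ar
  have h1 : e.σ (x * y) / e.τ (x * y) = (e.σ x / e.τ x) * (e.σ y / e.τ y) := by
    rw [map_mul, map_mul]
    field_simp
  rw [h1, Real.log_mul (div_pos hx hx').ne' (div_pos hy hy').ne']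

theorem ar_one (e : Emb K D) : ar e 1 = 0 := by
  unfold ar
  simp

theorem unit_XAB (e : Emb K D) {A : Ideal (𝓞 K)} (hA : A ≠ ⊥) :
    XAB e A A = XAB e ⊤ ⊤ := by
  have h := XAB_mul (A := ⊤) (B := ⊤) e hA
  rwa [Ideal.mul_top] at h

/-- a totally positive unit of argument zero is 1 -/
theorem unit_one (e : Emb K D) {u : K} (hu : u ∈ XAB e ⊤ ⊤) (h : ar e u = 0) : u = 1 := by
  have h1 := N5ah.norm_XAB e hu
  rw [Ideal.absNorm_top, Nat.cast_one, mul_one] at h1
  have h2 : e.σ u / e.τ u = 1 := by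
    have h3 : 0 < e.σ u / e.τ u := div_pos hu.1 hu.2.1
    exact Real.eq_one_of_pos_of_log_eq_zero h3 h
  rw [div_eq_one_iff_eq hu.2.1.ne'] at h2
  rw [← h2] at h1
  have h3 : e.σ u = 1 := by nlinarith [hu.1]
  have h4 : e.σ u = e.σ 1 := by rw [h3, map_one]
  exact e.σ.injective h4

theorem not_sq {D : ℕ} (hD : IsFund D) : ¬ IsSquare (D : ℤ) := by
  intro hsq
  have hsq' : IsSquare D := by
    obtain ⟨r, hr⟩ := hsq
    refine ⟨r.natAbs, ?_⟩
    zify
    rw [← abs_mul, abs_mul_self, hr]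
  obtain ⟨r, hr⟩ := hsq'
  obtain ⟨h1, h | ⟨m, hm, hm4, hsf⟩⟩ := hD
  · have h2 := (Nat.squarefree_iff_prime_squarefree.1 h.2)
    have h3 : IsUnit r := h.2 r ⟨1, by rw [hr]; ring⟩
    rw [Nat.isUnit_iff] at h3
    rw [h3] at hr
    omega
  · have h2 : 2 ∣ r := by
      have h3 : 2 ∣ r * r := by rw [← hr, hm]; exact ⟨2 * m, by ring⟩
      rcases (Nat.prime_two.dvd_mul).1 h3 with h | h <;> exact h
    obtain ⟨t, rfl⟩ := h2
    have h3 : m = t * t := by
      have : 4 * m = 4 * (t * t) := by rw [← hm, hr]; ring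
      omega
    have h4 : IsUnit t := hsf t ⟨1, by rw [h3]; ring⟩
    rw [Nat.isUnit_iff] at h4
    rw [h4] at h3
    omega

/-- a totally positive unit of positive argument -/
theorem exists_unit (hD : IsFund D) (e : Emb K D) : ∃ u ∈ XAB e ⊤ ⊤, 0 < ar e u := by
  have hDr : (0 : ℝ) < D := by exact_mod_cast (by have := hD.1; omega : 0 < D)
  have hsq : 0 < √(D : ℝ) := Real.sqrt_pos.mpr hDr
  have hss : √(D : ℝ) ^ 2 = D := Real.sq_sqrt hDr.le
  obtain ⟨x0, y0, hxy, hy0⟩ := Pell.exists_of_not_isSquare (d := (D : ℤ))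
    (by exact_mod_cast (by have := hD.1; omega : 0 < D)) (not_sq hD)
  -- positive representatives
  set x : ℤ := |x0| with hx
  set y : ℤ := |y0| with hy
  have hpell : x ^ 2 - D * y ^ 2 = 1 := by rw [hx, hy, sq_abs, sq_abs]; exact hxy
  have hypos : 0 < y := abs_pos.2 hy0
  have hxnn : 0 ≤ x := abs_nonneg _
  have hpr : (x : ℝ) ^ 2 - D * (y : ℝ) ^ 2 = 1 := by exact_mod_cast hpell
  have hyr : (0 : ℝ) < y := by exact_mod_cast hypos
  have hxr : (0 : ℝ) ≤ x := by exact_mod_cast hxnn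
  have hprod : ((x : ℝ) + y * √(D : ℝ)) * ((x : ℝ) - y * √(D : ℝ)) = 1 := by
    have : ((x : ℝ) + y * √(D : ℝ)) * ((x : ℝ) - y * √(D : ℝ)) =
        (x : ℝ) ^ 2 - √(D : ℝ) ^ 2 * (y : ℝ) ^ 2 := by ring
    rw [this, hss, hpr]
  have hp1 : 0 < (x : ℝ) + y * √(D : ℝ) := by positivity
  have hp2 : 0 < (x : ℝ) - y * √(D : ℝ) := by
    by_contra hcon
    push Not at hcon
    have := mul_nonpos_of_nonneg_of_nonpos hp1.le hcon
    linarith
  obtain ⟨z, hz1, hz2⟩ := e.int2 (2 * x) (2 * y) (by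
    have : 2 * x - D * (2 * y) = 2 * (x - D * y) := by ring
    rw [this]
    exact dvd_mul_right _ _)
  obtain ⟨z', hz1', hz2'⟩ := e.int2 (2 * x) (-(2 * y)) (by
    have : 2 * x - D * (-(2 * y)) = 2 * (x + D * y) := by ring
    rw [this]
    exact dvd_mul_right _ _)
  push_cast at hz1 hz2 hz1' hz2'
  have s1 : e.σ (z : K) = (x : ℝ) + y * √(D : ℝ) := by rw [hz1]; ring
  have s2 : e.τ (z : K) = (x : ℝ) - y * √(D : ℝ) := by rw [hz2]; ring
  have s3 : e.σ (z' : K) = (x : ℝ) - y * √(D : ℝ) := by rw [hz1']; ring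
  have hzz : (z : K) * (z' : K) = 1 := by
    apply e.σ.injective
    rw [map_mul, s1, s3, hprod, map_one]
  have hzz' : z * z' = 1 := by
    apply NumberField.RingOfIntegers.ext
    rw [show ((z * z' : 𝓞 K) : K) = (z : K) * (z' : K) from rfl, hzz]
    rfl
  refine ⟨(z : K), ⟨by rw [s1]; exact hp1, by rw [s2]; exact hp2, ?_⟩, ?_⟩
  · have h5 : FractionalIdeal.spanSingleton (nonZeroDivisors (𝓞 K)) (z : K) =
        ((Ideal.span {z} : Ideal (𝓞 K)) : FractionalIdeal (nonZeroDivisors (𝓞 K)) K) :=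
      (FractionalIdeal.coeIdeal_span_singleton z).symm
    have h6 : (Ideal.span {z} : Ideal (𝓞 K)) = ⊤ := by
      rw [Ideal.span_singleton_eq_top]
      exact IsUnit.of_mul_eq_one _ hzz'
    rw [h5, h6, ← FractionalIdeal.coeIdeal_mul, Ideal.top_mul]
  · unfold ar
    rw [s1, s2]
    apply Real.log_pos
    rw [one_lt_div hp2]
    have := mul_pos hyr hsq
    linarith

theorem mem_inv_top (e : Emb K D) {u : K} (hu : u ∈ XAB e ⊤ ⊤) :
    u ∈ (((⊤ : Ideal (𝓞 K)) : FractionalIdeal (nonZeroDivisors (𝓞 K)) K)⁻¹ :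
      FractionalIdeal (nonZeroDivisors (𝓞 K)) K) :=
  N5ah.mem_inv_of_XAB e top_ne_bot hu

/-- the totally positive unit of least positive argument -/
theorem exists_fund (h4 : P_N4) (hD : IsFund D) (h2 : Module.finrank ℚ K = 2)
    (hK : NumberField.discr K = (D : ℤ)) (e : Emb K D) :
    ∃ η ∈ XAB e ⊤ ⊤, 0 < ar e η ∧ ∀ u ∈ XAB e ⊤ ⊤, 0 < ar e u → ar e η ≤ ar e u := by
  obtain ⟨u0, hu0, hpos⟩ := exists_unit hD e
  set S : Set K := {u | u ∈ XAB e ⊤ ⊤ ∧ 0 < ar e u ∧ ar e u ≤ ar e u0} with hS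
  have hfin : S.Finite := by
    refine ((h4 K D hD h2 hK e ⊤ top_ne_bot 0 (ar e u0 + 1) (by linarith)).1 1).subset ?_
    rintro u ⟨h1, h3, h5⟩
    have h6 := N5ah.norm_XAB e h1
    rw [Ideal.absNorm_top, Nat.cast_one, mul_one] at h6
    refine ⟨h1.1, h1.2.1, h3.le, ?_, mem_inv_top e h1, ?_⟩
    · show ar e u < _
      linarith
    · rw [Ideal.absNorm_top, Nat.cast_one, mul_one]
      exact h6.symm.le
  obtain ⟨η, ⟨h1, h3, h5⟩, hmin⟩ := Set.exists_min_image S (ar e) hfin ⟨u0, hu0, hpos, le_rfl⟩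
  refine ⟨η, h1, h3, fun u hu hu' => ?_⟩
  by_cases h6 : ar e u ≤ ar e u0
  · exact hmin u ⟨hu, hu', h6⟩
  · push Not at h6
    linarith

theorem pow_XAB (e : Emb K D) {η : K} (hη : η ∈ XAB e ⊤ ⊤) (n : ℕ) :
    η ^ n ∈ XAB e ⊤ ⊤ ∧ ar e (η ^ n) = n * ar e η := by
  induction n with
  | zero =>
    rw [pow_zero]
    exact ⟨one_mem_XAB e _, by rw [ar_one]; simp⟩
  | succ n ih =>
    refine ⟨?_, ?_⟩
    · rw [pow_succ]
      exact mul_mem_XAB e hη ih.1
    · rw [pow_succ, ar_mul e ih.1.1 ih.1.2.1 hη.1 hη.2.1, ih.2]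
      push_cast
      ring

theorem inv_XAB (e : Emb K D) {A B : Ideal (𝓞 K)} {x : K} (hx : x ∈ XAB e A B) :
    x⁻¹ ∈ XAB e B A ∧ ar e x⁻¹ = - ar e x := by
  refine ⟨(XAB_inv e hx).1, ?_⟩
  unfold ar
  rw [map_inv₀, map_inv₀, ← Real.log_inv]
  congr 1
  rw [inv_div_inv, inv_div]

theorem zpow_XAB (e : Emb K D) {η : K} (hη : η ∈ XAB e ⊤ ⊤) (n : ℤ) :
    η ^ n ∈ XAB e ⊤ ⊤ ∧ ar e (η ^ n) = n * ar e η := by
  obtain ⟨m, rfl | rfl⟩ := n.eq_nat_or_neg
  · rw [zpow_natCast]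
    exact_mod_cast pow_XAB e hη m
  · have h1 := pow_XAB e hη m
    have h3 := inv_XAB e h1.1
    rw [zpow_neg, zpow_natCast]
    refine ⟨h3.1, ?_⟩
    rw [h3.2, h1.2]
    push_cast
    ring

/-- every ideal of the class of `A` is `xA` for exactly one `x` of the fundamental domain -/
theorem fund_dom (e : Emb K D) {η : K} (hη : η ∈ XAB e ⊤ ⊤) (hpos : 0 < ar e η)
    (hmin : ∀ u ∈ XAB e ⊤ ⊤, 0 < ar e u → ar e η ≤ ar e u) {A B : Ideal (𝓞 K)} (hA : A ≠ ⊥)
    (hB : B ≠ ⊥) (hAB : (XAB e A B).Nonempty) :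
    ∃ x ∈ XAB e A B, 0 ≤ ar e x ∧ ar e x < ar e η ∧
      ∀ y ∈ XAB e A B, 0 ≤ ar e y → ar e y < ar e η → y = x := by
  obtain ⟨x0, hx0⟩ := hAB
  set n : ℤ := ⌊ar e x0 / ar e η⌋ with hn
  have hz := zpow_XAB e hη (-n)
  have hzB : η ^ (-n) ∈ XAB e B B := by rw [unit_XAB e hB]; exact hz.1
  have hx : η ^ (-n) * x0 ∈ XAB e A B := mul_mem_XAB e hx0 hzB
  have hax : ar e (η ^ (-n) * x0) = ar e x0 - n * ar e η := by
    rw [ar_mul e hz.1.1 hz.1.2.1 hx0.1 hx0.2.1, hz.2]
    push_cast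
    ring
  have h1 : (n : ℝ) ≤ ar e x0 / ar e η := Int.floor_le _
  have h3 : ar e x0 / ar e η < n + 1 := Int.lt_floor_add_one _
  rw [le_div_iff₀ hpos] at h1
  rw [div_lt_iff₀ hpos] at h3
  refine ⟨_, hx, by rw [hax]; linarith, by rw [hax]; linarith, ?_⟩
  intro y hy hy0 hy1
  have hu := N5ah.XAB_div e hy hx
  rw [unit_XAB e hA] at hu
  have hau : ar e (y / (η ^ (-n) * x0)) = ar e y - ar e (η ^ (-n) * x0) :=
    N5ah.log_div e hy.1 hy.2.1 hx.1 hx.2.1
  have hx00 : η ^ (-n) * x0 ≠ 0 := N5ah.ne_zero_of_pos e hx.1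
  have h5 : ar e (y / (η ^ (-n) * x0)) = 0 := by
    rcases lt_trichotomy (ar e (y / (η ^ (-n) * x0))) 0 with h6 | h6 | h6
    · have h7 := inv_XAB e hu
      have h8 := hmin _ h7.1 (by rw [h7.2]; linarith)
      rw [h7.2, hau, hax] at h8
      linarith
    · exact h6
    · have h8 := hmin _ hu h6
      rw [hau, hax] at h8
      linarith
  have h9 := unit_one e hu h5
  rwa [div_eq_one_iff_eq hx00] at h9

/-- the narrow class relation -/
def Nr (e : Emb K D) (A J : nonZeroDivisors (Ideal (𝓞 K))) : Prop :=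
  (XAB e (A : Ideal (𝓞 K)) (J : Ideal (𝓞 K))).Nonempty

/-- the nonzero ideals of norm at most `N` -/
noncomputable def TN (K : Type) [Field K] [NumberField K] (N : ℕ) :
    Finset (nonZeroDivisors (Ideal (𝓞 K))) :=
  (Ideal.finite_setOfPred_absNorm_le₀ (S := 𝓞 K) N).toFinset

theorem mem_TN {N : ℕ} {I : nonZeroDivisors (Ideal (𝓞 K))} :
    I ∈ TN K N ↔ Ideal.absNorm (I : Ideal (𝓞 K)) ≤ N := by
  unfold TN
  rw [Set.Finite.mem_toFinset]
  rfl

/-- the sum over the ideals of a narrow class -/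
theorem sum_class (h4 : P_N4) (hD : IsFund D) (h2 : Module.finrank ℚ K = 2)
    (hK : NumberField.discr K = (D : ℤ)) (e : Emb K D)
    {η : K} (hη : η ∈ XAB e ⊤ ⊤) (hpos : 0 < ar e η)
    (hmin : ∀ u ∈ XAB e ⊤ ⊤, 0 < ar e u → ar e η ≤ ar e u)
    (θ : ℝ) (χ : nonZeroDivisors (Ideal (𝓞 K)) →* Circle) (hχ : Hk e θ χ)
    (A : nonZeroDivisors (Ideal (𝓞 K))) (N : ℕ) :
    ∑ J ∈ (TN K N).filter (Nr e A), ((χ J : Circle) : ℂ) =
    ((χ A : Circle) : ℂ) * ∑ᶠ x ∈ latSet e (A : Ideal (𝓞 K)) 0 (ar e η) N, E θ (ar e x) := by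
  have hA : (A : Ideal (𝓞 K)) ≠ ⊥ := nonZeroDivisors.coe_ne_zero A
  have hfin := (h4 K D hD h2 hK e A hA 0 (ar e η) hpos).1 N
  rw [finsum_mem_eq_finite_toFinset_sum _ hfin, Finset.mul_sum]
  have hdom : ∀ J ∈ (TN K N).filter (Nr e A), ∃ x ∈ XAB e (A : Ideal (𝓞 K))
      (J : Ideal (𝓞 K)), 0 ≤ ar e x ∧ ar e x < ar e η ∧
      ∀ y ∈ XAB e (A : Ideal (𝓞 K)) (J : Ideal (𝓞 K)), 0 ≤ ar e y → ar e y < ar e η → y = x := by
    intro J hJ
    exact fund_dom e hη hpos hmin hA (nonZeroDivisors.coe_ne_zero J) (Finset.mem_filter.1 hJ).2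
  refine Finset.sum_bij (fun J hJ => (hdom J hJ).choose) ?_ ?_ ?_ ?_
  · intro J hJ
    obtain ⟨h1, h3, h5, _⟩ := (hdom J hJ).choose_spec
    rw [Set.Finite.mem_toFinset]
    refine ⟨h1.1, h1.2.1, h3, h5, N5ah.mem_inv_of_XAB e hA h1, ?_⟩
    rw [← N5ah.norm_XAB e h1]
    exact_mod_cast mem_TN.1 (Finset.mem_filter.1 hJ).1
  · intro J hJ J' hJ' heq
    have h1 := (hdom J hJ).choose_spec.1
    have h3 := (hdom J' hJ').choose_spec.1
    rw [heq] at h1
    exact Subtype.ext (N5ah.XAB_unique e h1 h3)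
  · intro x hx
    rw [Set.Finite.mem_toFinset] at hx
    obtain ⟨g1, g2, g3, g4, g5, g6⟩ := hx
    obtain ⟨J, hJ, hxJ⟩ := N5ah.exists_XAB e hA g1 g2 g5
    have hJ' : J ∈ nonZeroDivisors (Ideal (𝓞 K)) := mem_nonZeroDivisors_of_ne_zero hJ
    have hmem : (⟨J, hJ'⟩ : nonZeroDivisors (Ideal (𝓞 K))) ∈ (TN K N).filter (Nr e A) := by
      rw [Finset.mem_filter, mem_TN]
      refine ⟨?_, ⟨x, hxJ⟩⟩
      have h7 := N5ah.norm_XAB e hxJ
      have h8 : (Ideal.absNorm J : ℝ) ≤ (N : ℝ) := by rw [h7]; exact g6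
      exact_mod_cast h8
    refine ⟨⟨J, hJ'⟩, hmem, ?_⟩
    exact ((hdom _ hmem).choose_spec.2.2.2 x hxJ g3 g4).symm
  · intro J hJ
    have h1 := (hdom J hJ).choose_spec.1
    rw [hχ A J _ h1, mul_comm]

/-- the narrow class relation -/
def nset (e : Emb K D) : Setoid (nonZeroDivisors (Ideal (𝓞 K))) where
  r A B := Nr e A B
  iseqv := {
    refl := fun A => ⟨1, one_mem_XAB e _⟩
    symm := fun ⟨x, hx⟩ => ⟨x⁻¹, (inv_XAB e hx).1⟩
    trans := fun ⟨x, hx⟩ ⟨y, hy⟩ => ⟨y * x, mul_mem_XAB e hx hy⟩ }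

/-- there are finitely many narrow classes -/
theorem nfin (e : Emb K D) : Finite (Quotient (nset e)) := by
  -- a representative of the class of each ideal
  have hrep : ∀ C : ClassGroup (𝓞 K), ∃ I : nonZeroDivisors (Ideal (𝓞 K)),
      ClassGroup.mk0 I = C := fun C => ClassGroup.mk0_surjective C
  choose R hR using hrep
  have hx : ∀ J : nonZeroDivisors (Ideal (𝓞 K)), ∃ x : K, x ≠ 0 ∧
      FractionalIdeal.spanSingleton (nonZeroDivisors (𝓞 K)) x *
      ((R (ClassGroup.mk0 J) : Ideal (𝓞 K)) : FractionalIdeal (nonZeroDivisors (𝓞 K)) K) =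
      (J : Ideal (𝓞 K)) := by
    intro J
    have h1 : ClassGroup.mk0 (R (ClassGroup.mk0 J)) = ClassGroup.mk0 J := hR _
    rw [ClassGroup.mk0_eq_mk0_iff] at h1
    obtain ⟨a, b, ha, hb, hab⟩ := h1
    have ha' : ((a : 𝓞 K) : K) ≠ 0 := by
      intro h; exact ha (by exact_mod_cast h)
    have hb' : ((b : 𝓞 K) : K) ≠ 0 := by
      intro h; exact hb (by exact_mod_cast h)
    refine ⟨(a : K) / (b : K), div_ne_zero ha' hb', ?_⟩
    have h3 : FractionalIdeal.spanSingleton (nonZeroDivisors (𝓞 K)) ((a : K) / (b : K)) =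
        FractionalIdeal.spanSingleton (nonZeroDivisors (𝓞 K)) ((b : K)⁻¹) *
        FractionalIdeal.spanSingleton (nonZeroDivisors (𝓞 K)) (a : K) := by
      rw [FractionalIdeal.spanSingleton_mul_spanSingleton, div_eq_mul_inv, mul_comm]
    have h5 : FractionalIdeal.spanSingleton (nonZeroDivisors (𝓞 K)) ((a : 𝓞 K) : K) =
        ((Ideal.span {a} : Ideal (𝓞 K)) : FractionalIdeal (nonZeroDivisors (𝓞 K)) K) :=
      (FractionalIdeal.coeIdeal_span_singleton a).symm
    have h6 : FractionalIdeal.spanSingleton (nonZeroDivisors (𝓞 K)) ((b : 𝓞 K) : K) =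
        ((Ideal.span {b} : Ideal (𝓞 K)) : FractionalIdeal (nonZeroDivisors (𝓞 K)) K) :=
      (FractionalIdeal.coeIdeal_span_singleton b).symm
    rw [h3, mul_assoc, h5, ← FractionalIdeal.coeIdeal_mul, hab, FractionalIdeal.coeIdeal_mul,
      ← h6, ← mul_assoc, FractionalIdeal.spanSingleton_mul_spanSingleton,
      inv_mul_cancel₀ hb', FractionalIdeal.spanSingleton_one, one_mul]
  choose xx hxx0 hxx using hx
  let f : nonZeroDivisors (Ideal (𝓞 K)) → ClassGroup (𝓞 K) × (Prop × Prop) := fun J =>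
    (ClassGroup.mk0 J, (0 < e.σ (xx J), 0 < e.τ (xx J)))
  have hf : ∀ J J', f J = f J' → (nset e).r J J' := by
    intro J J' h
    simp only [f, Prod.mk.injEq, eq_iff_iff] at h
    obtain ⟨h1, h3, h5⟩ := h
    have hs : e.σ (xx J) ≠ 0 := (map_ne_zero e.σ).2 (hxx0 J)
    have ht : e.τ (xx J) ≠ 0 := (map_ne_zero e.τ).2 (hxx0 J)
    have hs' : e.σ (xx J') ≠ 0 := (map_ne_zero e.σ).2 (hxx0 J')
    have ht' : e.τ (xx J') ≠ 0 := (map_ne_zero e.τ).2 (hxx0 J')
    refine ⟨xx J' / xx J, ?_, ?_, ?_⟩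
    · rw [map_div₀]
      by_cases h6 : 0 < e.σ (xx J)
      · exact div_pos (h3.1 h6) h6
      · have h7 : ¬ 0 < e.σ (xx J') := fun h => h6 (h3.2 h)
        exact div_pos_of_neg_of_neg (lt_of_le_of_ne (not_lt.1 h7) hs')
          (lt_of_le_of_ne (not_lt.1 h6) hs)
    · rw [map_div₀]
      by_cases h6 : 0 < e.τ (xx J)
      · exact div_pos (h5.1 h6) h6
      · have h7 : ¬ 0 < e.τ (xx J') := fun h => h6 (h5.2 h)
        exact div_pos_of_neg_of_neg (lt_of_le_of_ne (not_lt.1 h7) ht')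
          (lt_of_le_of_ne (not_lt.1 h6) ht)
    · have h8 : FractionalIdeal.spanSingleton (nonZeroDivisors (𝓞 K)) (xx J' / xx J) =
          FractionalIdeal.spanSingleton (nonZeroDivisors (𝓞 K)) (xx J') *
          FractionalIdeal.spanSingleton (nonZeroDivisors (𝓞 K)) ((xx J)⁻¹) := by
        rw [FractionalIdeal.spanSingleton_mul_spanSingleton, div_eq_mul_inv]
      rw [h8, ← hxx J, mul_assoc, ← mul_assoc (FractionalIdeal.spanSingleton
        (nonZeroDivisors (𝓞 K)) ((xx J)⁻¹)), FractionalIdeal.spanSingleton_mul_spanSingleton,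
        inv_mul_cancel₀ (hxx0 J), FractionalIdeal.spanSingleton_one, one_mul, h1]
      exact hxx J'
  refine Finite.of_injective (fun q : Quotient (nset e) => f q.out) ?_
  intro q q' h
  have h1 := hf _ _ h
  rw [← Quotient.out_eq q, ← Quotient.out_eq q']
  exact Quotient.sound h1

/-- orthogonality to the trivial character -/
theorem orth (h4 : P_N4) (hD : IsFund D) (h2 : Module.finrank ℚ K = 2)
    (hK : NumberField.discr K = (D : ℤ)) (e : Emb K D)
    (θ : ℝ) (χ : nonZeroDivisors (Ideal (𝓞 K)) →* Circle) (hχ : Hk e θ χ) (hne : χ ≠ 1) :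
    Tendsto (fun N : ℕ => (∑ J ∈ TN K N, ((χ J : Circle) : ℂ)) / (N : ℂ)) atTop (nhds 0) := by
  obtain ⟨η, hη, hpos, hmin⟩ := exists_fund h4 hD h2 hK e
  have hfinq := nfin e
  have := Fintype.ofFinite (Quotient (nset e))
  have hsplit : ∀ N : ℕ, (∑ J ∈ TN K N, ((χ J : Circle) : ℂ)) / (N : ℂ) =
      ∑ q : Quotient (nset e), ((χ q.out : Circle) : ℂ) *
        ((∑ᶠ x ∈ latSet e (q.out : Ideal (𝓞 K)) 0 (ar e η) N, E θ (ar e x)) / (N : ℂ)) := by
    intro N
    rw [← Finset.sum_fiberwise (TN K N) (fun J => (Quotient.mk (nset e) J))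
      (fun J => ((χ J : Circle) : ℂ)), Finset.sum_div]
    refine Finset.sum_congr rfl fun q _ => ?_
    rw [← mul_div_assoc, ← sum_class h4 hD h2 hK e hη hpos hmin θ χ hχ q.out N]
    congr 1
    refine Finset.sum_congr ?_ fun _ _ => rfl
    apply Finset.filter_congr
    intro J _
    constructor
    · intro h
      have h1 : (nset e).r q.out J := by
        apply Quotient.exact
        rw [Quotient.out_eq, h]
      exact h1
    · intro h
      have h1 : (nset e).r q.out J := h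
      have h3 := Quotient.sound h1
      rw [Quotient.out_eq] at h3
      exact h3.symm
  have hlim : Tendsto (fun N : ℕ => (∑ J ∈ TN K N, ((χ J : Circle) : ℂ)) / (N : ℂ)) atTop
      (nhds (∑ q : Quotient (nset e), ((χ q.out : Circle) : ℂ) *
        ((∫ u in (0 : ℝ)..(ar e η), E θ u) / ((2 * √(D : ℝ) : ℝ) : ℂ)))) := by
    refine Tendsto.congr (fun N => (hsplit N).symm) ?_
    refine tendsto_finsetSum _ fun q _ => ?_
    exact (lat_lim h4 hD h2 hK e _ (nonZeroDivisors.coe_ne_zero _) 0 (ar e η) hpos.le θ).const_mul _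
  have hzero : (∑ q : Quotient (nset e), ((χ q.out : Circle) : ℂ) *
        ((∫ u in (0 : ℝ)..(ar e η), E θ u) / ((2 * √(D : ℝ) : ℝ) : ℂ))) = 0 := by
    by_cases hθ : θ = 0
    · -- finite order characters
      rw [← Finset.sum_mul]
      have hS : ∑ q : Quotient (nset e), ((χ q.out : Circle) : ℂ) = 0 := by
        obtain ⟨B, hB⟩ : ∃ B, χ B ≠ 1 := by
          by_contra hcon
          push Not at hcon
          exact hne (MonoidHom.ext hcon)
        have hconst : ∀ A A' : nonZeroDivisors (Ideal (𝓞 K)), (nset e).r A A' →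
            ((χ A' : Circle) : ℂ) = ((χ A : Circle) : ℂ) := by
          rintro A A' ⟨x, hx⟩
          rw [hχ A A' x hx, hθ]
          unfold E
          simp
        let π : Quotient (nset e) → Quotient (nset e) := fun q => Quotient.mk (nset e) (B * q.out)
        have hinj : Function.Injective π := by
          intro q q' h
          have h1 : (nset e).r (B * q.out) (B * q'.out) := Quotient.exact h
          have h3 : (nset e).r q.out q'.out := by
            change (XAB e ((B : Ideal (𝓞 K)) * (q.out : Ideal (𝓞 K)))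
              ((B : Ideal (𝓞 K)) * (q'.out : Ideal (𝓞 K)))).Nonempty at h1
            rwa [XAB_mul e (nonZeroDivisors.coe_ne_zero B)] at h1
          rw [← Quotient.out_eq q, ← Quotient.out_eq q']
          exact Quotient.sound h3
        have hbij : Function.Bijective π := Finite.injective_iff_bijective.1 hinj
        have h5 : ∑ q : Quotient (nset e), ((χ q.out : Circle) : ℂ) =
            ∑ q : Quotient (nset e), ((χ (π q).out : Circle) : ℂ) :=
          (Function.Bijective.sum_comp hbij (fun q => ((χ q.out : Circle) : ℂ))).symm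
        have h6 : ∀ q : Quotient (nset e), ((χ (π q).out : Circle) : ℂ) =
            ((χ B : Circle) : ℂ) * ((χ q.out : Circle) : ℂ) := by
          intro q
          have h7 : (nset e).r (B * q.out) (π q).out := by
            apply Quotient.exact
            rw [Quotient.out_eq]
          rw [hconst _ _ h7, map_mul, Circle.coe_mul]
        rw [Finset.sum_congr rfl (fun q _ => h6 q), ← Finset.mul_sum] at h5
        have h8 : (1 - ((χ B : Circle) : ℂ)) * ∑ q : Quotient (nset e),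
            ((χ q.out : Circle) : ℂ) = 0 := by
          rw [sub_mul, one_mul]
          exact sub_eq_zero.2 h5
        rcases mul_eq_zero.1 h8 with h9 | h9
        · exfalso
          apply hB
          apply Circle.ext
          rw [Circle.coe_one]
          exact (sub_eq_zero.1 h9).symm
        · exact h9
      rw [hS, zero_mul]
    · -- positive frequency
      have h1 : E θ (ar e η) = 1 := by
        have h3 := hχ 1 1 η (by simpa using hη)
        rw [map_one, Circle.coe_one, mul_one] at h3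
        exact h3.symm
      rw [E_int θ 0 (ar e η) hθ, h1, E_zero, sub_self, zero_div, zero_div]
      simp
  rwa [hzero] at hlim

end Pool.Agent.W24.SG
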