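import Pool.Agent.W24.SG.Orth

/-!
# Bessel's inequality for a Hecke character and the trivial character
-/

set_option autoImplicit false

namespace Pool.Agent.W24.SG

open Finset Filter NumberField Pool.Agent.H38R2.CG Pool.Agent.H951R5.AR
open scoped Classical ComplexConjugate

variable {K : Type} [Field K] [NumberField K] {D : ℕ}

open N5ah in
/-- the finite inequality -/
theorem bessel_fin (hKF : P_KF) (hD : IsFund D) (hdeg : Module.finrank ℚ K = 2)
    (hdisc : NumberField.discr K = (D : ℤ)) (e : Emb K D)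
    (ι : Type) [Fintype ι] (A : ι → nonZeroDivisors (Ideal (𝓞 K))) (w : ι → ℝ)
    (hw : ∀ i, 0 ≤ w i) (θ : ℝ) (χ : nonZeroDivisors (Ideal (𝓞 K)) →* Circle) (hχ : Hk e θ χ)
    (z : ℂ) (N : ℕ) :
    ‖∑ i, (w i : ℂ) * (((latSet e (A i : Ideal (𝓞 K)) 0 1 N).ncard : ℂ) + z *
      conj (((χ (A i) : Circle) : ℂ) *
        ∑ᶠ x ∈ latSet e (A i : Ideal (𝓞 K)) 0 1 N, E θ (ar e x)))‖ ^ 2 ≤
    (((TN K N).card : ℝ) * (1 + ‖z‖ ^ 2) +
      2 * (z * conj (∑ J ∈ TN K N, ((χ J : Circle) : ℂ))).re) *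
    ∑ i, ∑ j, w i * w j * Vij e (A i : Ideal (𝓞 K)) (A j : Ideal (𝓞 K)) N := by
  have hA0 : ∀ i, (A i : Ideal (𝓞 K)) ≠ ⊥ := fun i => nonZeroDivisors.coe_ne_zero (A i)
  have hUfin : ∀ (i : ι) (J : nonZeroDivisors (Ideal (𝓞 K))),
      (U e (A i : Ideal (𝓞 K)) (J : Ideal (𝓞 K))).Finite := by
    intro i J
    refine (hKF K D hD hdeg hdisc e (A i) J (hA0 i) (nonZeroDivisors.coe_ne_zero J)).subset ?_
    rintro x ⟨h1, h2, h3⟩
    refine ⟨h1, ?_⟩
    show |Real.log (e.σ x / e.τ x)| ≤ 1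
    rw [abs_of_nonneg h2]
    exact h3.le
  set T : Finset (nonZeroDivisors (Ideal (𝓞 K))) := TN K N with hT
  have hTmem : ∀ I, I ∈ T ↔ Ideal.absNorm (I : Ideal (𝓞 K)) ≤ N := fun I => mem_TN
  let UF : ι → nonZeroDivisors (Ideal (𝓞 K)) → Finset K := fun i J => (hUfin i J).toFinset
  have hUF : ∀ i J x, x ∈ UF i J ↔ x ∈ U e (A i : Ideal (𝓞 K)) (J : Ideal (𝓞 K)) := by
    intro i J x
    exact Set.Finite.mem_toFinset _
  -- the lattice sets
  have hlat : ∀ i, latSet e (A i : Ideal (𝓞 K)) 0 1 N = (T.biUnion (UF i) : Finset K) := by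
    intro i
    ext x
    constructor
    · rintro ⟨h1, h2, h3, h4, h5, h6⟩
      obtain ⟨J, hJ, hxJ⟩ := exists_XAB e (hA0 i) h1 h2 h5
      have hJ' : J ∈ nonZeroDivisors (Ideal (𝓞 K)) := mem_nonZeroDivisors_of_ne_zero hJ
      rw [Finset.mem_coe, Finset.mem_biUnion]
      refine ⟨⟨J, hJ'⟩, ?_, ?_⟩
      · rw [hTmem]
        have h7 := norm_XAB e hxJ
        have h8 : (Ideal.absNorm J : ℝ) ≤ (N : ℝ) := by rw [h7]; exact h6
        exact_mod_cast h8
      · rw [hUF]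
        exact ⟨hxJ, h3, h4⟩
    · intro hx
      rw [Finset.mem_coe, Finset.mem_biUnion] at hx
      obtain ⟨J, hJ, hxJ⟩ := hx
      rw [hUF] at hxJ
      rw [hTmem] at hJ
      refine ⟨hxJ.1.1, hxJ.1.2.1, hxJ.2.1, hxJ.2.2, mem_inv_of_XAB e (hA0 i) hxJ.1, ?_⟩
      rw [← norm_XAB e hxJ.1]
      exact_mod_cast hJ
  have hlatfin : ∀ i, (latSet e (A i : Ideal (𝓞 K)) 0 1 N).Finite := fun i => by
    rw [hlat i]
    exact Finset.finite_toSet _
  have hlatsum : ∀ i, ∀ ψ : K → ℂ, ∑ᶠ x ∈ latSet e (A i : Ideal (𝓞 K)) 0 1 N, ψ x =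
      ∑ J ∈ T, ∑ x ∈ UF i J, ψ x := by
    intro i ψ
    rw [hlat i, finsum_mem_coe_finset, Finset.sum_biUnion]
    intro J _ J' _ hne
    rw [Function.onFun, Finset.disjoint_left]
    intro x hx hx'
    rw [hUF] at hx hx'
    exact hne (Subtype.ext (XAB_unique e hx.1 hx'.1))
  have hlatcard : ∀ i, ((latSet e (A i : Ideal (𝓞 K)) 0 1 N).ncard : ℂ) =
      ∑ J ∈ T, ((UF i J).card : ℂ) := by
    intro i
    have h1 := hlatsum i (fun _ => 1)
    rw [finsum_mem_eq_finite_toFinset_sum _ (hlatfin i), Finset.sum_const, nsmul_eq_mul, mul_one]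
      at h1
    rw [Set.ncard_eq_toFinset_card _ (hlatfin i), h1]
    refine Finset.sum_congr rfl fun J _ => ?_
    rw [Finset.sum_const, nsmul_eq_mul, mul_one]
  -- the pair counts
  have hpair : ∀ i j, ∑ J ∈ T, ((UF i J).card : ℝ) * ((UF j J).card : ℝ) ≤
      Vij e (A i : Ideal (𝓞 K)) (A j : Ideal (𝓞 K)) N := by
    intro i j
    have hΔfin := hKF K D hD hdeg hdisc e (A i) (A j) (hA0 i) (hA0 j)
    set Δ : Finset K := hΔfin.toFinset with hΔ
    have hΔmem : ∀ x, x ∈ Δ ↔ x ∈ XAB e (A i : Ideal (𝓞 K)) (A j : Ideal (𝓞 K)) ∧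
        |Real.log (e.σ x / e.τ x)| ≤ 1 := by
      intro x
      rw [hΔ, Set.Finite.mem_toFinset]
      rfl
    let L : K → Set K := fun x => latSet e (A j : Ideal (𝓞 K))
      (max 0 (-(Real.log (e.σ x / e.τ x)))) (min 1 (1 - Real.log (e.σ x / e.τ x))) N
    have hLfin : ∀ x, (L x).Finite := by
      intro x
      refine (hlatfin j).subset ?_
      rintro y ⟨h1, h2, h3, h4, h5, h6⟩
      exact ⟨h1, h2, (le_max_left _ _).trans h3, h4.trans_le (min_le_left _ _), h5, h6⟩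
    have hV : Vij e (A i : Ideal (𝓞 K)) (A j : Ideal (𝓞 K)) N = ∑ x ∈ Δ, ((L x).ncard : ℝ) := by
      unfold Vij
      refine finsum_mem_eq_sum_of_subset _ ?_ ?_
      · rintro x ⟨hx1, hx2⟩
        rw [Finset.mem_coe, hΔmem]
        refine ⟨hx1, ?_⟩
        by_contra hcon
        apply hx2
        have hempty : L x = ∅ := by
          rw [Set.eq_empty_iff_forall_notMem]
          rintro y ⟨h1, h2, h3, h4, h5, h6⟩
          have h7 : 0 ≤ Real.log (e.σ y / e.τ y) := (le_max_left _ _).trans h3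
          have h8 : -(Real.log (e.σ x / e.τ x)) ≤ Real.log (e.σ y / e.τ y) :=
            (le_max_right _ _).trans h3
          have h9 : Real.log (e.σ y / e.τ y) < 1 := h4.trans_le (min_le_left _ _)
          have h10 : Real.log (e.σ y / e.τ y) < 1 - Real.log (e.σ x / e.τ x) :=
            h4.trans_le (min_le_right _ _)
          apply hcon
          rw [abs_le]
          constructor <;> linarith
        show ((L x).ncard : ℝ) = 0
        rw [hempty, Set.ncard_empty, Nat.cast_zero]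
      · intro x hx
        exact ((hΔmem x).1 (Finset.mem_coe.1 hx)).1
    rw [hV]
    let LF : K → Finset K := fun x => (hLfin x).toFinset
    have hLF : ∀ x, (LF x).card = (L x).ncard := fun x =>
      (Set.ncard_eq_toFinset_card _ (hLfin x)).symm
    have hcard : (T.sigma fun J => UF i J ×ˢ UF j J).card ≤ (Δ.sigma LF).card := by
      refine Finset.card_le_card_of_injOn
        (fun p => (⟨p.2.1 / p.2.2, p.2.2⟩ : Σ _ : K, K)) ?_ ?_
      · rintro ⟨J, x, y⟩ hp
        rw [Finset.mem_coe, Finset.mem_sigma] at hp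
        obtain ⟨hJ, hxy⟩ := hp
        simp only [Finset.mem_product, hUF] at hxy
        obtain ⟨hx, hy⟩ := hxy
        rw [hTmem] at hJ
        have hld := log_div e hx.1.1 hx.1.2.1 hy.1.1 hy.1.2.1
        have hxd := XAB_div e hx.1 hy.1
        simp only at hJ
        rw [Finset.mem_coe, Finset.mem_sigma]
        constructor
        · show x / y ∈ Δ
          rw [hΔmem]
          refine ⟨hxd, ?_⟩
          rw [hld, abs_le]
          have h1 := hx.2.1
          have h2 := hx.2.2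
          have h3 := hy.2.1
          have h4 := hy.2.2
          constructor <;> linarith
        · show y ∈ LF (x / y)
          rw [Set.Finite.mem_toFinset]
          have h1 := hx.2.1
          have h2 := hx.2.2
          have h3 := hy.2.1
          have h4 := hy.2.2
          refine ⟨hy.1.1, hy.1.2.1, ?_, ?_, mem_inv_of_XAB e (hA0 j) hy.1, ?_⟩
          · rw [hld]
            refine max_le h3 ?_
            linarith
          · rw [hld]
            refine lt_min h4 ?_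
            linarith
          · rw [← norm_XAB e hy.1]
            exact_mod_cast hJ
      · rintro ⟨J, x, y⟩ hp ⟨J', x', y'⟩ hp' heq
        rw [Finset.mem_coe, Finset.mem_sigma] at hp hp'
        obtain ⟨hJ, hxy⟩ := hp
        obtain ⟨hJ', hxy'⟩ := hp'
        simp only [Finset.mem_product, hUF] at hxy hxy'
        simp only [Sigma.mk.injEq, heq_eq_eq] at heq
        obtain ⟨h1, h2⟩ := heq
        subst h2
        have hy0 := ne_zero_of_pos e hxy.2.1.1
        have h3 : x = x' := by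
          have := congrArg (fun z => z * y) h1
          simpa [div_mul_cancel₀ _ hy0] using this
        subst h3
        have h4 : (J : Ideal (𝓞 K)) = (J' : Ideal (𝓞 K)) := XAB_unique e hxy.2.1 hxy'.2.1
        have h5 : J = J' := Subtype.ext h4
        subst h5
        rfl
    rw [Finset.card_sigma, Finset.card_sigma] at hcard
    simp only [Finset.card_product] at hcard
    calc ∑ J ∈ T, ((UF i J).card : ℝ) * ((UF j J).card : ℝ)
        = ((∑ J ∈ T, (UF i J).card * (UF j J).card : ℕ) : ℝ) := by push_cast; rfl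
      _ ≤ ((∑ x ∈ Δ, (LF x).card : ℕ) : ℝ) := by exact_mod_cast hcard
      _ = ∑ x ∈ Δ, ((L x).ncard : ℝ) := by
          push_cast
          exact Finset.sum_congr rfl fun x _ => by rw [hLF]
  -- the sum on the left
  let g : nonZeroDivisors (Ideal (𝓞 K)) → ℝ := fun J => ∑ i, w i * ((UF i J).card : ℝ)
  let h : nonZeroDivisors (Ideal (𝓞 K)) → ℂ := fun J => 1 + z * conj ((χ J : Circle) : ℂ)
  have hg0 : ∀ J, 0 ≤ g J := fun J =>
    Finset.sum_nonneg fun i _ => mul_nonneg (hw i) (Nat.cast_nonneg _)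
  have hleft : ∑ i, (w i : ℂ) * (((latSet e (A i : Ideal (𝓞 K)) 0 1 N).ncard : ℂ) + z *
      conj (((χ (A i) : Circle) : ℂ) *
        ∑ᶠ x ∈ latSet e (A i : Ideal (𝓞 K)) 0 1 N, E θ (ar e x))) =
      ∑ J ∈ T, (g J : ℂ) * h J := by
    have h1 : ∀ i, ∀ J ∈ T, ((UF i J).card : ℂ) * conj ((χ J : Circle) : ℂ) =
        conj (((χ (A i) : Circle) : ℂ) * ∑ x ∈ UF i J, E θ (ar e x)) := by
      intro i J _
      rw [map_mul, map_sum, Finset.mul_sum]
      have h3 : ∀ x ∈ UF i J, conj ((χ (A i) : Circle) : ℂ) * conj (E θ (ar e x)) =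
          conj ((χ J : Circle) : ℂ) := by
        intro x hx
        rw [hUF] at hx
        rw [hχ (A i) J x hx.1, map_mul, mul_comm]
      rw [Finset.sum_congr rfl h3, Finset.sum_const, nsmul_eq_mul]
    have h5 : ∀ i, (w i : ℂ) * (((latSet e (A i : Ideal (𝓞 K)) 0 1 N).ncard : ℂ) + z *
      conj (((χ (A i) : Circle) : ℂ) *
        ∑ᶠ x ∈ latSet e (A i : Ideal (𝓞 K)) 0 1 N, E θ (ar e x))) =
        ∑ J ∈ T, ((w i * ((UF i J).card : ℝ) : ℝ) : ℂ) * h J := by
      intro i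
      rw [hlatcard i, hlatsum i (fun x => E θ (ar e x)), Finset.mul_sum (s := T) (a :=
        ((χ (A i) : Circle) : ℂ)), map_sum, Finset.mul_sum, ← Finset.sum_add_distrib,
        Finset.mul_sum]
      refine Finset.sum_congr rfl fun J hJ => ?_
      rw [← h1 i J hJ]
      simp only [h]
      push_cast
      ring
    rw [Finset.sum_congr rfl (fun i _ => h5 i), Finset.sum_comm]
    refine Finset.sum_congr rfl fun J _ => ?_
    rw [← Finset.sum_mul]
    simp only [g]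
    push_cast
    rfl
  rw [hleft]
  -- Cauchy-Schwarz
  have hcs : ‖∑ J ∈ T, (g J : ℂ) * h J‖ ^ 2 ≤ (∑ J ∈ T, ‖h J‖ ^ 2) * ∑ J ∈ T, g J ^ 2 := by
    have h1 : ‖∑ J ∈ T, (g J : ℂ) * h J‖ ≤ ∑ J ∈ T, ‖h J‖ * g J := by
      refine (norm_sum_le _ _).trans (le_of_eq ?_)
      refine Finset.sum_congr rfl fun J _ => ?_
      rw [norm_mul, Complex.norm_real, Real.norm_eq_abs, abs_of_nonneg (hg0 J), mul_comm]
    calc ‖∑ J ∈ T, (g J : ℂ) * h J‖ ^ 2 ≤ (∑ J ∈ T, ‖h J‖ * g J) ^ 2 :=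
          pow_le_pow_left₀ (norm_nonneg _) h1 2
      _ ≤ (∑ J ∈ T, ‖h J‖ ^ 2) * ∑ J ∈ T, g J ^ 2 := Finset.sum_mul_sq_le_sq_mul_sq _ _ _
  have hh : ∑ J ∈ T, ‖h J‖ ^ 2 = (T.card : ℝ) * (1 + ‖z‖ ^ 2) +
      2 * (z * conj (∑ J ∈ T, ((χ J : Circle) : ℂ))).re := by
    have h1 : ∀ J, ‖h J‖ ^ 2 = (1 + ‖z‖ ^ 2) + 2 * (z * conj ((χ J : Circle) : ℂ)).re := by
      intro J
      have h3 : ‖z * conj ((χ J : Circle) : ℂ)‖ = ‖z‖ := by
        rw [norm_mul, Complex.norm_conj, Circle.norm_coe, mul_one]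
      have h5 : ‖h J‖ ^ 2 = 1 + 2 * (z * conj ((χ J : Circle) : ℂ)).re +
          ‖z * conj ((χ J : Circle) : ℂ)‖ ^ 2 := by
        simp only [h]
        rw [← Complex.normSq_eq_norm_sq, ← Complex.normSq_eq_norm_sq, Complex.normSq_add]
        rw [Complex.normSq_one, one_mul, Complex.conj_re]
        ring
      rw [h5, h3]
      ring
    rw [Finset.sum_congr rfl (fun J _ => h1 J), Finset.sum_add_distrib, Finset.sum_const,
      nsmul_eq_mul]
    congr 1
    rw [← Finset.mul_sum]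
    congr 1
    rw [map_sum, Finset.mul_sum, Complex.re_sum]
  have hgg : ∑ J ∈ T, g J ^ 2 ≤
      ∑ i, ∑ j, w i * w j * Vij e (A i : Ideal (𝓞 K)) (A j : Ideal (𝓞 K)) N := by
    have heq : ∑ J ∈ T, g J ^ 2 = ∑ i, ∑ j, w i * w j *
        ∑ J ∈ T, ((UF i J).card : ℝ) * ((UF j J).card : ℝ) := by
      have h1 : ∀ J, g J ^ 2 =
          ∑ i, ∑ j, w i * w j * (((UF i J).card : ℝ) * ((UF j J).card : ℝ)) := by
        intro J
        simp only [g]
        rw [sq, Finset.sum_mul_sum]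
        refine Finset.sum_congr rfl fun i _ => Finset.sum_congr rfl fun j _ => ?_
        ring
      rw [Finset.sum_congr rfl fun J _ => h1 J, Finset.sum_comm]
      refine Finset.sum_congr rfl fun i _ => ?_
      rw [Finset.sum_comm]
      refine Finset.sum_congr rfl fun j _ => ?_
      rw [Finset.mul_sum]
    rw [heq]
    refine Finset.sum_le_sum fun i _ => Finset.sum_le_sum fun j _ => ?_
    exact mul_le_mul_of_nonneg_left (hpair i j) (mul_nonneg (hw i) (hw j))
  rw [← hh]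
  exact hcs.trans (mul_le_mul_of_nonneg_left hgg (Finset.sum_nonneg fun J _ => sq_nonneg _))

/-- the limit of the inequality -/
theorem bessel_z (hKF : P_KF) (h4 : P_N4) (h5b : P_N5b) (hN3 : P_N3) (hD : IsFund D)
    (hdeg : Module.finrank ℚ K = 2) (hdisc : NumberField.discr K = (D : ℤ)) (e : Emb K D)
    (ι : Type) [Fintype ι] (A : ι → nonZeroDivisors (Ideal (𝓞 K))) (w : ι → ℝ)
    (hw : ∀ i, 0 ≤ w i) (θ : ℝ) (χ : nonZeroDivisors (Ideal (𝓞 K)) →* Circle) (hχ : Hk e θ χ)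
    (hne : χ ≠ 1) (z : ℂ) :
    ‖((∑ i, w i : ℝ) : ℂ) + z * conj ((∫ u in (0 : ℝ)..1, E θ u) *
      ∑ i, (w i : ℂ) * ((χ (A i) : Circle) : ℂ))‖ ^ 2 ≤
    2 * √(D : ℝ) * Lone D * (1 + ‖z‖ ^ 2) *
      ∑ i, ∑ j, w i * w j * KAB e (A i : Ideal (𝓞 K)) (A j : Ideal (𝓞 K)) := by
  have hDr : (0 : ℝ) < D := by exact_mod_cast (by have := hD.1; omega : 0 < D)
  have hsq : 0 < √(D : ℝ) := Real.sqrt_pos.mpr hDr
  have hss : √(D : ℝ) ^ 2 = D := Real.sq_sqrt hDr.le
  have hA0 : ∀ i, (A i : Ideal (𝓞 K)) ≠ ⊥ := fun i => nonZeroDivisors.coe_ne_zero (A i)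
  set c : ℝ := 2 * √(D : ℝ) with hc
  have hcpos : 0 < c := by positivity
  have hcC : (c : ℂ) ≠ 0 := by exact_mod_cast hcpos.ne'
  set F : ℂ := ∫ u in (0 : ℝ)..1, E θ u with hF
  set Kn : ℝ := ∑ i, ∑ j, w i * w j * KAB e (A i : Ideal (𝓞 K)) (A j : Ideal (𝓞 K)) with hKn
  -- limits
  have hl1 : Tendsto (fun N : ℕ => ‖∑ i, (w i : ℂ) *
      ((((((latSet e (A i : Ideal (𝓞 K)) 0 1 N).ncard : ℝ) / N : ℝ)) : ℂ) + z *
      conj (((χ (A i) : Circle) : ℂ) *
        ((∑ᶠ x ∈ latSet e (A i : Ideal (𝓞 K)) 0 1 N, E θ (ar e x)) / (N : ℂ))))‖ ^ 2) atTop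
      (nhds (‖∑ i, (w i : ℂ) * ((((1 - 0) / c : ℝ) : ℂ) + z *
        conj (((χ (A i) : Circle) : ℂ) * (F / (c : ℂ))))‖ ^ 2)) := by
    refine Tendsto.pow (Tendsto.norm ?_) 2
    refine tendsto_finsetSum _ fun i _ => ?_
    refine Tendsto.const_mul _ ?_
    refine Tendsto.add ?_ ?_
    · have h1 := (h4 K D hD hdeg hdisc e (A i) (hA0 i) 0 1 one_pos).2
      exact (Complex.continuous_ofReal.tendsto _).comp h1
    · refine Tendsto.const_mul _ ?_
      refine (Complex.continuous_conj.tendsto _).comp ?_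
      refine Tendsto.const_mul _ ?_
      exact lat_lim h4 hD hdeg hdisc e (A i) (hA0 i) 0 1 zero_le_one θ
  have hcount : Tendsto (fun N : ℕ => ((TN K N).card : ℝ) / N) atTop (nhds (Lone D)) := by
    refine ((hN3 K D hD hdeg hdisc).2.1).congr fun N => ?_
    congr 2
    unfold TN
    exact Nat.card_eq_card_finite_toFinset (Ideal.finite_setOfPred_absNorm_le₀ (S := 𝓞 K) N)
  have horth := orth h4 hD hdeg hdisc e θ χ hχ hne
  have hl2 : Tendsto (fun N : ℕ => (((TN K N).card : ℝ) / N * (1 + ‖z‖ ^ 2) +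
      2 * (z * conj ((∑ J ∈ TN K N, ((χ J : Circle) : ℂ)) / (N : ℂ))).re) *
      ∑ i, ∑ j, w i * w j * (Vij e (A i : Ideal (𝓞 K)) (A j : Ideal (𝓞 K)) N / N)) atTop
      (nhds ((Lone D * (1 + ‖z‖ ^ 2) + 2 * (z * conj (0 : ℂ)).re) *
        ∑ i, ∑ j, w i * w j *
          (KAB e (A i : Ideal (𝓞 K)) (A j : Ideal (𝓞 K)) / (2 * √(D : ℝ))))) := by
    refine Tendsto.mul ?_ ?_
    · refine Tendsto.add (hcount.mul_const _) ?_
      refine Tendsto.const_mul _ ?_
      refine (Complex.continuous_re.tendsto _).comp ?_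
      refine Tendsto.const_mul _ ?_
      exact (Complex.continuous_conj.tendsto _).comp horth
    · refine tendsto_finsetSum _ fun i _ => tendsto_finsetSum _ fun j _ => ?_
      exact (h5b K D hD hdeg hdisc e (A i) (A j) (hA0 i) (hA0 j)).const_mul (w i * w j)
  have hle := le_of_tendsto_of_tendsto hl1 hl2 (by
    filter_upwards [eventually_ge_atTop 1] with N hN
    have hN0 : (0 : ℝ) < N := by exact_mod_cast hN
    have hNC : (N : ℂ) ≠ 0 := by exact_mod_cast hN0.ne'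
    have h := bessel_fin hKF hD hdeg hdisc e ι A w hw θ χ hχ z N
    have e1 : ∑ i, (w i : ℂ) *
      ((((((latSet e (A i : Ideal (𝓞 K)) 0 1 N).ncard : ℝ) / N : ℝ)) : ℂ) + z *
      conj (((χ (A i) : Circle) : ℂ) *
        ((∑ᶠ x ∈ latSet e (A i : Ideal (𝓞 K)) 0 1 N, E θ (ar e x)) / (N : ℂ)))) =
      (∑ i, (w i : ℂ) * (((latSet e (A i : Ideal (𝓞 K)) 0 1 N).ncard : ℂ) + z *
      conj (((χ (A i) : Circle) : ℂ) *
        ∑ᶠ x ∈ latSet e (A i : Ideal (𝓞 K)) 0 1 N, E θ (ar e x)))) / (N : ℂ) := by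
      rw [Finset.sum_div]
      refine Finset.sum_congr rfl fun i _ => ?_
      rw [← mul_div_assoc, map_div₀, Complex.conj_natCast]
      push_cast
      field_simp
    have e2 : (((TN K N).card : ℝ) / N * (1 + ‖z‖ ^ 2) +
      2 * (z * conj ((∑ J ∈ TN K N, ((χ J : Circle) : ℂ)) / (N : ℂ))).re) =
      (((TN K N).card : ℝ) * (1 + ‖z‖ ^ 2) +
      2 * (z * conj (∑ J ∈ TN K N, ((χ J : Circle) : ℂ))).re) / N := by
      rw [map_div₀, Complex.conj_natCast, ← mul_div_assoc, Complex.div_natCast_re]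
      ring
    have e3 : ∑ i, ∑ j, w i * w j * (Vij e (A i : Ideal (𝓞 K)) (A j : Ideal (𝓞 K)) N / N) =
        (∑ i, ∑ j, w i * w j * Vij e (A i : Ideal (𝓞 K)) (A j : Ideal (𝓞 K)) N) / N := by
      rw [Finset.sum_div]
      refine Finset.sum_congr rfl fun i _ => ?_
      rw [Finset.sum_div]
      refine Finset.sum_congr rfl fun j _ => ?_
      ring
    rw [e1, e2, e3, norm_div, Complex.norm_natCast, div_pow]
    rw [div_mul_div_comm, ← sq]
    gcongr)
  rw [map_zero, mul_zero, Complex.zero_re, mul_zero, add_zero] at hle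
  have e4 : ∑ i, (w i : ℂ) * ((((1 - 0) / c : ℝ) : ℂ) + z *
        conj (((χ (A i) : Circle) : ℂ) * (F / (c : ℂ)))) =
      (((∑ i, w i : ℝ) : ℂ) + z * conj (F * ∑ i, (w i : ℂ) * ((χ (A i) : Circle) : ℂ))) /
        (c : ℂ) := by
    rw [Finset.mul_sum, map_sum, Finset.mul_sum]
    push_cast
    rw [← Finset.sum_add_distrib, Finset.sum_div]
    refine Finset.sum_congr rfl fun i _ => ?_
    simp only [map_mul, map_div₀, Complex.conj_ofReal]
    field_simp
    ring
  have e5 : ∑ i, ∑ j, w i * w j *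
        (KAB e (A i : Ideal (𝓞 K)) (A j : Ideal (𝓞 K)) / (2 * √(D : ℝ))) = Kn / c := by
    rw [hKn, Finset.sum_div]
    refine Finset.sum_congr rfl fun i _ => ?_
    rw [Finset.sum_div]
    refine Finset.sum_congr rfl fun j _ => ?_
    rw [hc]
    ring
  rw [e4, e5, norm_div, Complex.norm_real, Real.norm_eq_abs, abs_of_pos hcpos, div_pow,
    div_le_iff₀ (by positivity)] at hle
  refine hle.trans (le_of_eq ?_)
  field_simp

/-- Bessel's inequality -/
theorem bessel (hKF : P_KF) (h4 : P_N4) (h5b : P_N5b) (hN3 : P_N3) (hD : IsFund D)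
    (hdeg : Module.finrank ℚ K = 2) (hdisc : NumberField.discr K = (D : ℤ)) (e : Emb K D)
    (ι : Type) [Fintype ι] (A : ι → nonZeroDivisors (Ideal (𝓞 K))) (w : ι → ℝ)
    (hw : ∀ i, 0 ≤ w i) (θ : ℝ) (χ : nonZeroDivisors (Ideal (𝓞 K)) →* Circle) (hχ : Hk e θ χ)
    (hne : χ ≠ 1) :
    (∑ i, w i) ^ 2 + ‖∫ u in (0 : ℝ)..1, E θ u‖ ^ 2 *
      ‖∑ i, (w i : ℂ) * ((χ (A i) : Circle) : ℂ)‖ ^ 2 ≤
    2 * √(D : ℝ) * Lone D *
      ∑ i, ∑ j, w i * w j * KAB e (A i : Ideal (𝓞 K)) (A j : Ideal (𝓞 K)) := by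
  set W : ℝ := ∑ i, w i with hW
  have hW0 : 0 ≤ W := Finset.sum_nonneg fun i _ => hw i
  set F : ℂ := ∫ u in (0 : ℝ)..1, E θ u with hF
  set S : ℂ := ∑ i, (w i : ℂ) * ((χ (A i) : Circle) : ℂ) with hS
  set C : ℝ := 2 * √(D : ℝ) * Lone D *
      ∑ i, ∑ j, w i * w j * KAB e (A i : Ideal (𝓞 K)) (A j : Ideal (𝓞 K)) with hC
  rw [← mul_pow, ← norm_mul]
  rcases hW0.eq_or_lt with h0 | hpos
  · have hwi : ∀ i, w i = 0 := by
      intro i
      have h1 := (Finset.sum_eq_zero_iff_of_nonneg (fun i _ => hw i)).1 h0.symm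
      exact h1 i (Finset.mem_univ i)
    have hS0 : S = 0 := by
      rw [hS]
      refine Finset.sum_eq_zero fun i _ => ?_
      rw [hwi i]
      simp
    have hC0 : C = 0 := by
      rw [hC]
      have : ∑ i, ∑ j, w i * w j * KAB e (A i : Ideal (𝓞 K)) (A j : Ideal (𝓞 K)) = 0 := by
        refine Finset.sum_eq_zero fun i _ => Finset.sum_eq_zero fun j _ => ?_
        rw [hwi i]
        ring
      rw [this, mul_zero]
    rw [hS0, hC0, ← h0]
    simp
  · have h := bessel_z hKF h4 h5b hN3 hD hdeg hdisc e ι A w hw θ χ hχ hne (F * S / (W : ℂ))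
    have e1 : (W : ℂ) + F * S / (W : ℂ) * conj (F * S) =
        (((W ^ 2 + ‖F * S‖ ^ 2) / W : ℝ) : ℂ) := by
      have h1 : F * S * conj (F * S) = ((‖F * S‖ ^ 2 : ℝ) : ℂ) := by
        rw [Complex.mul_conj, Complex.normSq_eq_norm_sq]
      rw [div_mul_eq_mul_div, h1]
      have hWC : (W : ℂ) ≠ 0 := by exact_mod_cast hpos.ne'
      push_cast
      field_simp
    rw [e1, Complex.norm_real, Real.norm_eq_abs, abs_of_nonneg (by positivity), norm_div,
      Complex.norm_real, Real.norm_eq_abs, abs_of_pos hpos] at h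
    set Q : ℝ := W ^ 2 + ‖F * S‖ ^ 2 with hQ
    have hQpos : 0 < Q := by positivity
    have e2 : 2 * √(D : ℝ) * Lone D * (1 + (‖F * S‖ / W) ^ 2) *
        ∑ i, ∑ j, w i * w j * KAB e (A i : Ideal (𝓞 K)) (A j : Ideal (𝓞 K)) =
        C * (Q / W ^ 2) := by
      rw [hC, hQ]
      field_simp
    rw [e2, div_pow, sq Q, mul_div_assoc] at h
    have h3 : 0 < Q / W ^ 2 := by positivity
    exact le_of_mul_le_mul_right h h3

/-- the size of the constant -/
theorem F_low (θ : ℝ) (hθ : |θ| ≤ Real.pi) :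
    4 / Real.pi ^ 2 ≤ ‖∫ u in (0 : ℝ)..1, E θ u‖ ^ 2 := by
  have hpi := Real.pi_pos
  by_cases h0 : θ = 0
  · have h1 : (fun u : ℝ => E θ u) = fun _ => 1 := by
      funext u
      unfold E
      rw [h0]
      simp
    rw [h1]
    simp only [intervalIntegral.integral_const, sub_zero, one_smul, norm_one, one_pow]
    rw [div_le_one (by positivity)]
    have := Real.pi_gt_three
    nlinarith
  · rw [E_int θ 0 1 h0, E_zero, norm_div, norm_mul, Complex.norm_I, mul_one, Complex.norm_real,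
      Real.norm_eq_abs]
    have h1 : ‖E θ 1 - 1‖ = 2 * |Real.sin (θ / 2)| := by
      have h3 := Complex.norm_exp_I_mul_ofReal_sub_one θ
      unfold E
      rw [mul_one, mul_comm]
      rw [h3, Real.norm_eq_abs, abs_mul]
      norm_num
    rw [h1]
    have habs : 0 < |θ| := abs_pos.2 h0
    have h2 : |θ| / Real.pi ≤ |Real.sin (θ / 2)| := by
      have h3 : |Real.sin (θ / 2)| = |Real.sin (|θ| / 2)| := by
        rcases abs_cases θ with ⟨h, _⟩ | ⟨h, _⟩
        · rw [h]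
        · rw [h, neg_div, Real.sin_neg, abs_neg]
      rw [h3]
      have h5 := Real.mul_le_sin (x := |θ| / 2) (by positivity) (by linarith)
      refine le_trans ?_ ((h5).trans (le_abs_self _))
      apply le_of_eq
      field_simp
    rw [div_pow, le_div_iff₀ (by positivity), mul_pow]
    have h6 : (|θ| / Real.pi) ^ 2 ≤ |Real.sin (θ / 2)| ^ 2 :=
      pow_le_pow_left₀ (by positivity) h2 2
    have h7 : 4 / Real.pi ^ 2 * |θ| ^ 2 = 2 ^ 2 * (|θ| / Real.pi) ^ 2 := by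
      field_simp
      norm_num
    rw [h7]
    exact mul_le_mul_of_nonneg_left h6 (by norm_num)

end Pool.Agent.W24.SG
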